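import Pool.Agent.Lib.MP_84d657_an.Geom

/-!
The competitor `max u β` and its geometric properties.
-/

open Set MeasureTheory Filter Topology Metric
open scoped ENNReal NNReal RealInnerProductSpace

namespace Pool.Agent.Lib.MP_84d657_an

theorem calib_le {a x S N c : ℝ} (hx : 0 < x) (hS : 0 < S)
    (hS2 : S ^ 2 = a ^ 2 + x ^ 2) (hN : N ^ 2 + c ^ 2 ≤ 1) :
    N ≤ x / S + a / x * (a / S - c) := by
  have h1 : N * x + a * c ≤ S := by
    refine (abs_le_of_sq_le_sq' ?_ hS.le).2
    calc (N * x + a * c) ^ 2 ≤ (N ^ 2 + c ^ 2) * (a ^ 2 + x ^ 2) := by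
          nlinarith [sq_nonneg (N * a - c * x)]
      _ ≤ 1 * (a ^ 2 + x ^ 2) := by gcongr
      _ = S ^ 2 := by rw [hS2, one_mul]
  have h2 : x / S + a / x * (a / S - c) = (S - a * c) / x := by
    field_simp
    linarith
  rw [h2, le_div_iff₀ hx]
  linarith

theorem calib_le' {a x S N c : ℝ} (ha : 0 < a) (hx : 0 < x) (hS : 0 < S)
    (hS2 : S ^ 2 = a ^ 2 + x ^ 2) (hN : N ^ 2 + c ^ 2 ≤ 1) :
    N ≤ x / S + a / x * (a / S - c) / 2 + x / a := by
  have haS : a ≤ S := (abs_le_of_sq_le_sq' (by nlinarith [sq_nonneg x]) hS.le).2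
  have h1 : N ^ 2 ≤ 2 * (1 - c) := by nlinarith [sq_nonneg (1 - c)]
  have h2 : N ≤ N ^ 2 * (a / x) / 4 + x / a := by
    have h3 : N ^ 2 * (a / x) / 4 + x / a - N = (N * a - 2 * x) ^ 2 / (4 * a * x) := by
      field_simp
      ring
    have h4 : 0 ≤ (N * a - 2 * x) ^ 2 / (4 * a * x) := by positivity
    linarith
  have h5 : N ^ 2 * (a / x) ≤ 2 * (1 - c) * (a / x) := by gcongr
  have h6 : x / S + a / x * (a / S - c) = (S - a * c) / x := by
    field_simp
    linarith
  have h7 : (1 - c) * (a / x) ≤ (S - a * c) / x := by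
    rw [← mul_div_assoc]
    gcongr
    linarith
  have h8 : 0 ≤ x / S := by positivity
  linarith

/-- The constant in the upper bound for the defect. -/
noncomputable def cBig (n : ℕ) (L : ℝ) : ℝ := L * ((2 * L) ^ n) ^ 2

/-- The constant in the lower bound for the defect. -/
noncomputable def cSmall (n : ℕ) (L : ℝ) : ℝ := L * ((L / 2) ^ n) ^ 2 / 24

/-- The hypotheses on the function `u` and on the parameters. -/
structure Data (n : ℕ) (e : Euc (n + 1)) (u : Euc (n + 1) → ℝ) (L η d a : ℝ) : Prop where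
  he : ‖e‖ = 1
  hu : LipschitzWith 1 u
  hL : 0 < L
  hη : 0 < η
  hηL : η ≤ L / 16
  hd : 0 < d
  ha : 0 < a
  right : u (L • e) = L
  left : u ((-L) • e) = -L
  beyond : -(L + η) + d ≤ u ((-(L + η)) • e)
  h1 : (2 * L) ^ n ≤ a
  h2 : cBig n L / a ^ 2 ≤ L / 4
  h3 : 12 * L * (cBig n L / a ^ 2) ≤ (d / 2) ^ 2
  h4 : cBig n L / a ^ 2 ≤ d / 2

/-- The perturbation `(β - u)₊`, truncated far away. -/
noncomputable def pert (n : ℕ) (u : Euc (n + 1) → ℝ) (L a : ℝ) (w : Euc (n + 1)) : ℝ :=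
  max (min (barrier n a L w - u w) (2 * L - ‖w‖)) 0

/-- The weight used to localize the gain. -/
noncomputable def wt (n : ℕ) (e : Euc (n + 1)) (L η a : ℝ) (w : Euc (n + 1)) : ℝ :=
  (-⟪e, w⟫ - L + 2 * η - a ^ 2 / (2 * cSmall n L) * (‖w‖ ^ 2 - ⟪e, w⟫ ^ 2)) / (3 * η)

variable {n : ℕ} {e : Euc (n + 1)} {u : Euc (n + 1) → ℝ} {L η d a : ℝ}

theorem pert_nonneg (w : Euc (n + 1)) : 0 ≤ pert n u L a w := le_max_right _ _

namespace Data

theorem cBig_pos (H : Data n e u L η d a) : 0 < cBig n L := by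
  have := H.hL
  unfold cBig
  positivity

theorem cSmall_pos (H : Data n e u L η d a) : 0 < cSmall n L := by
  have := H.hL
  unfold cSmall
  positivity

theorem lip (H : Data n e u L η d a) (x y : Euc (n + 1)) : u x - u y ≤ ‖x - y‖ := by
  have := H.hu.dist_le_mul x y
  rw [Real.dist_eq, dist_eq_norm, NNReal.coe_one, one_mul] at this
  exact (le_abs_self _).trans this

theorem abs_inner_le (H : Data n e u L η d a) (w : Euc (n + 1)) : |⟪e, w⟫| ≤ ‖w‖ := by
  simpa [H.he] using abs_real_inner_le_norm e w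

theorem lipschitz_pert (H : Data n e u L η d a) : ∃ K, LipschitzWith K (pert n u L a) :=
  ⟨_, (((lipschitzWith_barrier H.ha).sub H.hu).min
    ((LipschitzWith.const (2 * L)).sub lipschitzWith_one_norm)).max_const 0⟩

theorem of_pos (H : Data n e u L η d a) {w : Euc (n + 1)} (hw : 0 < pert n u L a w) :
    L / 2 < ‖w‖ ∧ ‖w‖ < L + η ∧ ‖w‖ + ⟪e, w⟫ ≤ 3 * (cBig n L / a ^ 2) ∧
      barrier n a L w - u w ≤ cBig n L / a ^ 2 := by
  have hL := H.hL
  have hη := H.hη
  have hηL := H.hηL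
  have hd := H.hd
  have h0 : 0 < min (barrier n a L w - u w) (2 * L - ‖w‖) := by
    rcases lt_max_iff.1 hw with h | h
    · exact h
    · exact absurd h (lt_irrefl 0)
  obtain ⟨h1, h2⟩ := lt_min_iff.1 h0
  set R := ‖w‖ with hR
  set t := ⟪e, w⟫ with ht
  have hRt := abs_le.1 (H.abs_inner_le w)
  have hR0 : 0 ≤ R := norm_nonneg w
  set A := ‖w + (-L) • e‖ with hA
  have hA2 : A ^ 2 = R ^ 2 + 2 * (-L) * t + (-L) ^ 2 := norm_add_smul_sq H.he w (-L)
  have hA0 : 0 ≤ A := norm_nonneg _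
  have hAle : A ≤ R + L := by
    refine (norm_add_le _ _).trans ?_
    rw [norm_smul, H.he, Real.norm_eq_abs, abs_neg, abs_of_pos hL, mul_one]
  have hlow : L - A ≤ u w := by
    have := H.lip (L • e) w
    rw [H.right, norm_sub_rev, sub_eq_add_neg w, ← neg_smul] at this
    linarith
  have hD := defect_le (n := n) H.ha hL (R := R) (by linarith)
  have hD' : defect n a L R ≤ cBig n L / a ^ 2 := hD
  have hb : barrier n a L w = defect n a L R - R := rfl
  have h3 : L / 2 < R := by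
    by_contra h
    have := defect_nonpos (n := n) (L := L) H.ha (not_lt.1 h)
    linarith
  have h4 : R + t ≤ 3 * (cBig n L / a ^ 2) := by
    have h5 : R + L - A ≤ cBig n L / a ^ 2 := by linarith
    have h6 : 2 * L * (R + t) = (R + L - A) * (R + L + A) := by nlinarith
    have h7 : (R + L - A) * (R + L + A) ≤ (cBig n L / a ^ 2) * (6 * L) := by
      refine mul_le_mul h5 (by linarith) (by linarith) (by linarith)
    have h8 : 2 * L * (R + t) ≤ 2 * L * (3 * (cBig n L / a ^ 2)) := by linarith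
    exact le_of_mul_le_mul_left h8 (by linarith)
  refine ⟨h3, ?_, h4, by linarith⟩
  by_contra h5
  have h5' : L + η ≤ R := not_lt.1 h5
  set B := ‖w + (L + η) • e‖ with hB
  have hB2 : B ^ 2 = R ^ 2 + 2 * (L + η) * t + (L + η) ^ 2 := norm_add_smul_sq H.he w (L + η)
  have h6 : B ≤ R - (L + η) + d / 2 := by
    refine (abs_le_of_sq_le_sq' ?_ (by linarith)).2
    have h7 : 2 * (L + η) * (R + t) ≤ (d / 2) ^ 2 := by
      refine le_trans ?_ H.h3
      calc 2 * (L + η) * (R + t) ≤ 4 * L * (3 * (cBig n L / a ^ 2)) :=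
            mul_le_mul (by linarith) h4 (by linarith) (by linarith)
        _ = _ := by ring
    have h8 : 0 ≤ (R - (L + η)) * d := mul_nonneg (by linarith) hd.le
    nlinarith
  have h9 : u ((-(L + η)) • e) - u w ≤ B := by
    have := H.lip ((-(L + η)) • e) w
    rwa [norm_sub_rev, neg_smul, sub_neg_eq_add, ← neg_smul] at this
  have := H.beyond
  have := H.h4
  linarith

theorem eventuallyEq_of_pos (H : Data n e u L η d a) {w : Euc (n + 1)}
    (hw : 0 < pert n u L a w) :
    pert n u L a =ᶠ[𝓝 w] fun y => barrier n a L y - u y := by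
  obtain ⟨K, hK⟩ := H.lipschitz_pert
  filter_upwards [hK.continuous.continuousAt.eventually (lt_mem_nhds hw)] with y hy
  obtain ⟨-, h1, -, h2⟩ := H.of_pos hy
  have h3 : barrier n a L y - u y ≤ 2 * L - ‖y‖ := by linarith [H.h2, H.hηL, H.hL]
  have h4 : 0 < max (min (barrier n a L y - u y) (2 * L - ‖y‖)) 0 := hy
  unfold pert
  rw [min_eq_left h3] at h4 ⊢
  rcases lt_max_iff.1 h4 with h | h
  · exact max_eq_left h.le
  · exact absurd h (lt_irrefl 0)

theorem eq_of_pos (H : Data n e u L η d a) {w : Euc (n + 1)} (hw : 0 < pert n u L a w) :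
    pert n u L a w = barrier n a L w - u w :=
  (H.eventuallyEq_of_pos hw).eq_of_nhds

theorem tsupport_subset (H : Data n e u L η d a) :
    tsupport (pert n u L a) ⊆ {w | L / 2 ≤ ‖w‖} ∩ closedBall 0 (2 * L) := by
  refine closure_minimal ?_ ((isClosed_le continuous_const continuous_norm).inter isClosed_closedBall)
  intro w hw
  obtain ⟨h1, h2, -⟩ := H.of_pos (lt_of_le_of_ne (pert_nonneg w) (Ne.symm hw))
  exact ⟨h1.le, mem_closedBall_zero_iff.2 (by linarith [H.hηL, H.hL])⟩

theorem hasCompactSupport (H : Data n e u L η d a) : HasCompactSupport (pert n u L a) :=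
  (isCompact_closedBall _ _).of_isClosed_subset (isClosed_tsupport _)
    (H.tsupport_subset.trans inter_subset_right)

theorem zero_notMem (H : Data n e u L η d a) : (0 : Euc (n + 1)) ∉ tsupport (pert n u L a) := by
  intro h
  have h1 : L / 2 ≤ ‖(0 : Euc (n + 1))‖ := (H.tsupport_subset h).1
  rw [norm_zero] at h1
  linarith [H.hL]

theorem mem_tube (H : Data n e u L η d a) {w : Euc (n + 1)} (hw : 0 < pert n u L a w) :
    w ∈ cyl e (-(2 * L)) (2 * L) (√(12 * L * cBig n L) / a) := by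
  obtain ⟨h1, h2, h3, -⟩ := H.of_pos hw
  have hRt := abs_le.1 (H.abs_inner_le w)
  have hL := H.hL
  have hηL := H.hηL
  have hC := H.cBig_pos
  refine ⟨by linarith, by linarith, ?_⟩
  rw [div_pow, Real.sq_sqrt (by positivity)]
  calc ‖w‖ ^ 2 - ⟪e, w⟫ ^ 2 = (‖w‖ + ⟪e, w⟫) * (‖w‖ - ⟪e, w⟫) := by ring
    _ ≤ (3 * (cBig n L / a ^ 2)) * (4 * L) :=
        mul_le_mul h3 (by linarith) (by linarith) (by have := H.ha; positivity)
    _ = _ := by ring

theorem of_mem_main (H : Data n e u L η d a) {w : Euc (n + 1)}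
    (hw : w ∈ cyl e (-L + η) (-L + 3 * η / 2) (√(cSmall n L * η / 2) / a)) :
    cSmall n L / (2 * a ^ 2) ≤ pert n u L a w ∧ 0 < wt n e L η a w := by
  obtain ⟨h1, h2, h3⟩ := hw
  have hL := H.hL
  have hη := H.hη
  have hηL := H.hηL
  have ha := H.ha
  have hc := H.cSmall_pos
  rw [div_pow, Real.sq_sqrt (by positivity)] at h3
  set R := ‖w‖ with hR
  set t := ⟪e, w⟫ with ht
  have hRt := abs_le.1 (H.abs_inner_le w)
  have hR0 : 0 ≤ R := norm_nonneg w
  set q := R ^ 2 - t ^ 2 with hq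
  have hq0 : 0 ≤ q := by nlinarith
  have hcC : cSmall n L ≤ cBig n L := by
    unfold cSmall cBig
    have : (L / 2) ^ n ≤ (2 * L) ^ n := by gcongr; linarith
    calc L * ((L / 2) ^ n) ^ 2 / 24 ≤ L * ((2 * L) ^ n) ^ 2 / 24 := by gcongr
      _ ≤ _ := by linarith [show 0 ≤ L * ((2 * L) ^ n) ^ 2 by positivity]
  have hca : cSmall n L / a ^ 2 ≤ L / 4 := le_trans (by gcongr) H.h2
  have hqη : q / η ≤ cSmall n L / a ^ 2 / 2 := by
    rw [div_le_iff₀ hη]
    calc q ≤ _ := h3
      _ = _ := by ring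
  have hqL : q / L ≤ q / η / 2 := by
    rw [div_div]
    exact div_le_div_of_nonneg_left hq0 (by positivity) (by linarith)
  have hqL0 : 0 ≤ q / L := by positivity
  have hRle : R ≤ -t + q / L := by
    refine (abs_le_of_sq_le_sq' ?_ (by linarith)).2
    have h4 : q = q / L * L := by field_simp
    nlinarith [sq_nonneg (q / L), mul_nonneg hqL0 (show 0 ≤ -2 * t - L by linarith)]
  have hup : u w ≤ t + q / η / 2 := by
    have h4 := H.lip w ((-L) • e)
    rw [H.left, neg_smul, sub_neg_eq_add w] at h4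
    have h5 : ‖w + L • e‖ ≤ t + L + q / η / 2 := by
      have h6 : 0 ≤ q / η := by positivity
      refine (abs_le_of_sq_le_sq' ?_ (by linarith)).2
      rw [norm_add_smul_sq H.he]
      have h7 : q = q / η * η := by field_simp
      nlinarith [sq_nonneg (q / η), mul_nonneg h6 (show 0 ≤ t + L - η by linarith)]
    linarith
  have hD : cSmall n L / a ^ 2 ≤ defect n a L R :=
    le_defect ha hL H.h1 (by linarith) (by linarith)
  have hb : barrier n a L w = defect n a L R - R := rfl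
  have hpos : 0 < cSmall n L / a ^ 2 := by positivity
  have hlow : cSmall n L / a ^ 2 / 2 ≤ barrier n a L w - u w := by linarith
  have hp : 0 < pert n u L a w :=
    lt_max_of_lt_left (lt_min (by linarith) (by linarith))
  constructor
  · rw [H.eq_of_pos hp]
    calc _ = cSmall n L / a ^ 2 / 2 := by ring
      _ ≤ _ := hlow
  · refine div_pos ?_ (by positivity)
    have h4 : a ^ 2 / (2 * cSmall n L) * q ≤ a ^ 2 / (2 * cSmall n L) *
        (cSmall n L * η / 2 / a ^ 2) := by gcongr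
    have h5 : a ^ 2 / (2 * cSmall n L) * (cSmall n L * η / 2 / a ^ 2) = η / 4 := by
      field_simp
      ring
    linarith

theorem of_wt_pos (H : Data n e u L η d a) {w : Euc (n + 1)} (hw : 0 < pert n u L a w)
    (hg : 0 < wt n e L η a w) :
    w ∈ cyl e (-L - η) (-L + 2 * η) (4 * (√(cSmall n L * η / 2) / a)) ∧ wt n e L η a w ≤ 1 ∧
      L / (6 * η) ≤ fderiv ℝ (wt n e L η a) w w := by
  obtain ⟨h1, h2, -, -⟩ := H.of_pos hw
  have hL := H.hL
  have hη := H.hη
  have hηL := H.hηL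
  have ha := H.ha
  have hc := H.cSmall_pos
  have hRt := abs_le.1 (H.abs_inner_le w)
  set N := a ^ 2 / (2 * cSmall n L) with hN
  have hN0 : 0 < N := by positivity
  have hq0 : 0 ≤ ‖w‖ ^ 2 - ⟪e, w⟫ ^ 2 := by nlinarith [norm_nonneg w]
  have hNq := mul_nonneg hN0.le hq0
  have hg' : 0 < -⟪e, w⟫ - L + 2 * η - N * (‖w‖ ^ 2 - ⟪e, w⟫ ^ 2) :=
    (div_pos_iff_of_pos_right (by positivity)).1 hg
  refine ⟨⟨by linarith, by linarith, ?_⟩, ?_, ?_⟩
  · rw [mul_pow, div_pow, Real.sq_sqrt (by positivity)]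
    have h3 : N * (‖w‖ ^ 2 - ⟪e, w⟫ ^ 2) ≤ N * (4 ^ 2 * (cSmall n L * η / 2 / a ^ 2)) := by
      have h4 : N * (4 ^ 2 * (cSmall n L * η / 2 / a ^ 2)) = 4 * η := by
        rw [hN]
        field_simp
        ring
      linarith
    exact le_of_mul_le_mul_left h3 hN0
  · exact (div_le_one (by positivity)).2 (by linarith)
  · have hi : HasFDerivAt (fun y : Euc (n + 1) => ⟪e, y⟫) (innerSL ℝ e) w :=
      (innerSL ℝ e).hasFDerivAt
    have hd : HasFDerivAt (wt n e L η a) _ w :=
      (((hi.neg.sub_const L).add_const (2 * η)).sub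
        ((((hasFDerivAt_id w).norm_sq).sub (hi.pow 2)).const_mul N)).mul_const (3 * η)⁻¹
    rw [hd.fderiv]
    have h3 : L / (6 * η) = (3 * η)⁻¹ * (L / 2) := by
      field_simp
      ring
    simp only [h3, smul_apply, sub_apply, neg_apply, innerSL_apply_apply, smul_eq_mul, id,
      ContinuousLinearMap.comp_apply, ContinuousLinearMap.id_apply, real_inner_self_eq_norm_sq,
      nsmul_eq_mul]
    gcongr
    push_cast
    nlinarith

end Data

end Pool.Agent.Lib.MP_84d657_an
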