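import Pool.Agent.Lib.MP_84d657_an.Weak

/-!
Functions with a bounded weak gradient are Lipschitz, and the weak gradient is the classical one.
-/

open Set MeasureTheory Filter Topology Metric
open scoped ContDiff ENNReal NNReal RealInnerProductSpace Convolution

namespace Pool.Agent.Lib.MP_84d657_an

variable {m : ℕ} {Ω : Set (Euc m)} {u : Euc m → ℝ} {G : Euc m → Euc m}

theorem setIntegral_eq_integral_of_zero {f : Euc m → ℝ} (h : ∀ x, x ∉ Ω → f x = 0) :
    ∫ x in Ω, f x = ∫ x, f x :=
  setIntegral_eq_integral_of_forall_compl_eq_zero h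

theorem fderiv_eq_zero_of_notMem {η : Euc m → ℝ} {x : Euc m} (hx : x ∉ tsupport η) :
    fderiv ℝ η x = 0 := by
  have : η =ᶠ[𝓝 x] fun _ => 0 := notMem_tsupport_iff_eventuallyEq.1 hx
  rw [this.fderiv_eq]
  simp

theorem abs_sub_le_of_segment (hΩ : IsOpen Ω) (hu : ContinuousOn u Ω)
    (hG : IsWeakGradient Ω u G) (hle : ∀ᵐ x ∂(volume.restrict Ω), ‖G x‖ ≤ 1) {x y : Euc m}
    (hseg : segment ℝ x y ⊆ Ω) : |u y - u x| ≤ ‖y - x‖ := by
  have hsc : IsCompact (segment ℝ x y) := by
    rw [segment_eq_image]
    exact isCompact_Icc.image (by fun_prop)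
  obtain ⟨δ, hδ, hK⟩ := hsc.exists_cthickening_subset_open hΩ hseg
  set K := cthickening δ (segment ℝ x y) with hKd
  have hKc : IsCompact K := hsc.cthickening
  have hKm : MeasurableSet K := hKc.measurableSet
  set v : Euc m → ℝ := K.indicator u with hv
  have hvi : Integrable v :=
    ((hu.mono hK).integrableOn_compact hKc).integrable_indicator hKm
  have hball : ∀ z ∈ segment ℝ x y, closedBall z δ ⊆ K := fun z hz =>
    closedBall_subset_cthickening hz δ
  -- the mollified functions are Lipschitz on the segment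
  have key : ∀ φ : ContDiffBump (0 : Euc m), φ.rOut ≤ δ →
      |(φ.normed volume ⋆[ContinuousLinearMap.lsmul ℝ ℝ, volume] v) y -
        (φ.normed volume ⋆[ContinuousLinearMap.lsmul ℝ ℝ, volume] v) x| ≤ ‖y - x‖ := by
    intro φ hφ
    set n := φ.normed volume with hn
    have hnc : HasCompactSupport n := φ.hasCompactSupport_normed
    have hns : ContDiff ℝ ∞ n := φ.contDiff_normed
    rw [← convolution_flip]
    set L := (ContinuousLinearMap.lsmul ℝ ℝ : ℝ →L[ℝ] ℝ →L[ℝ] ℝ).flip with hL
    have hd := fun z => hnc.hasFDerivAt_convolution_right L hvi.locallyIntegrable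
      (hns.of_le (by simp)) z
    have hb : ∀ z ∈ segment ℝ x y,
        ‖(v ⋆[L.precompR (Euc m), volume] fderiv ℝ n) z‖ ≤ 1 := by
      intro z hz
      refine ContinuousLinearMap.opNorm_le_bound _ zero_le_one fun ξ => ?_
      rw [convolution_precompR_apply L hvi.locallyIntegrable (hnc.fderiv ℝ)
        (hns.continuous_fderiv (by simp)), convolution_def]
      set η : Euc m → ℝ := fun s => n (z - s) with hη
      have hηs : ContDiff ℝ ∞ η := hns.comp (contDiff_const.sub contDiff_id)
      have hηt : tsupport η ⊆ closedBall z δ := by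
        refine closure_minimal ?_ isClosed_closedBall
        intro s hs
        have h1 : z - s ∈ Function.support n := hs
        rw [hn, φ.support_normed_eq, mem_ball_zero_iff] at h1
        rw [mem_closedBall, dist_comm, dist_eq_norm]
        linarith
      have hηc : HasCompactSupport η :=
        (isCompact_closedBall z δ).of_isClosed_subset (isClosed_tsupport η) hηt
      have hηK : tsupport η ⊆ K := hηt.trans (hball z hz)
      have hw := hG.2.2 η hηs hηc (hηK.trans hK) ξ
      have hdη : ∀ s, fderiv ℝ η s ξ = -fderiv ℝ n (z - s) ξ := by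
        intro s
        have h1 : HasFDerivAt η ((fderiv ℝ n (z - s)).comp (0 - ContinuousLinearMap.id ℝ _)) s :=
          (hns.differentiable (by simp) (z - s)).hasFDerivAt.comp s
            ((hasFDerivAt_const z s).sub (hasFDerivAt_id s))
        rw [h1.fderiv]
        simp
      have h1 : ∫ t, L (v t) (fderiv ℝ n (z - t) ξ) = -∫ t in Ω, u t * fderiv ℝ η t ξ := by
        rw [setIntegral_eq_integral_of_zero, ← integral_neg]
        · refine integral_congr_ae (Eventually.of_forall fun t => ?_)
          by_cases ht : t ∈ K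
          · simp [hL, hv, indicator_of_mem ht, hdη, mul_comm]
          · have h2 := fderiv_eq_zero_of_notMem fun h => ht (hηK h)
            simp [hL, hv, indicator_of_notMem ht, h2]
        · intro t ht
          simp [fderiv_eq_zero_of_notMem fun h => ht (hK (hηK h))]
      rw [h1, hw, neg_neg]
      have hη0 : ∀ s, 0 ≤ η s := fun s => φ.nonneg_normed _
      have hηi : Integrable η := hηs.continuous.integrable_of_hasCompactSupport hηc
      have h2 : ‖∫ t in Ω, ⟪G t, ξ⟫ * η t‖ ≤ ∫ t in Ω, ‖ξ‖ * η t := by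
        refine norm_integral_le_of_norm_le (hηi.const_mul _).integrableOn ?_
        filter_upwards [hle] with t ht
        rw [norm_mul, Real.norm_of_nonneg (hη0 t)]
        refine mul_le_mul_of_nonneg_right ?_ (hη0 t)
        exact (norm_inner_le_norm _ _).trans (mul_le_of_le_one_left (norm_nonneg _) ht)
      have h3 : ∫ t in Ω, ‖ξ‖ * η t ≤ ∫ t, ‖ξ‖ * η t :=
        setIntegral_le_integral (hηi.const_mul _)
          (Eventually.of_forall fun t => mul_nonneg (norm_nonneg _) (hη0 t))
      have h4 : ∫ t, η t = 1 := by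
        rw [hη, integral_sub_left_eq_self n volume z]
        exact φ.integral_normed
      have h5 : ∫ t, ‖ξ‖ * η t = ‖ξ‖ := by rw [integral_const_mul, h4, mul_one]
      linarith
    have := (convex_segment x y).norm_image_sub_le_of_norm_hasFDerivWithin_le
      (fun z _ => (hd z).hasFDerivWithinAt) hb (left_mem_segment ℝ x y) (right_mem_segment ℝ x y)
    simpa using this
  -- pass to the limit
  let φ : ℕ → ContDiffBump (0 : Euc m) := fun k =>
    ⟨δ / (k + 1) / 2, δ / (k + 1), by positivity, half_lt_self (by positivity)⟩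
  have hφ : Tendsto (fun k => (φ k).rOut) atTop (𝓝 0) := by
    have := tendsto_one_div_add_atTop_nhds_zero_nat (𝕜 := ℝ).const_mul δ
    simpa [φ, div_eq_mul_inv] using this
  have hlim : ∀ z ∈ segment ℝ x y, Tendsto
      (fun k => ((φ k).normed volume ⋆[ContinuousLinearMap.lsmul ℝ ℝ, volume] v) z) atTop
      (𝓝 (u z)) := by
    intro z hz
    have hKz : K ∈ 𝓝 z := mem_of_superset (closedBall_mem_nhds z hδ) (hball z hz)
    have h1 : u =ᶠ[𝓝 z] v := by
      filter_upwards [hKz] with s hs
      simp [hv, indicator_of_mem hs]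
    have h2 : Tendsto v (𝓝 z) (𝓝 (u z)) :=
      (hu.continuousAt (hΩ.mem_nhds (hseg hz))).tendsto.congr' h1
    exact ContDiffBump.convolution_tendsto_right (g := fun _ => v) hφ
      (Eventually.of_forall fun _ => hvi.aestronglyMeasurable) (h2.comp tendsto_snd)
      tendsto_const_nhds
  have h5 := ((hlim y (right_mem_segment ℝ x y)).sub (hlim x (left_mem_segment ℝ x y))).abs
  refine le_of_tendsto' h5 fun k => key (φ k) ?_
  have hk : (1 : ℝ) ≤ k + 1 := by linarith [(Nat.cast_nonneg k : (0 : ℝ) ≤ k)]
  exact div_le_self hδ.le hk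

/-- On an open set where `u` agrees with a Lipschitz function, the weak gradient is the classical
derivative. -/
theorem ae_eq_fderiv (hG : IsWeakGradient Ω u G) {B : Set (Euc m)} (hB : IsOpen B) (hBΩ : B ⊆ Ω)
    {v : Euc m → ℝ} {K : ℝ≥0} (hv : LipschitzWith K v) (huv : EqOn u v B) :
    ∀ᵐ x, x ∈ B → innerSL ℝ (G x) = fderiv ℝ v x := by
  set b := EuclideanSpace.basisFun (Fin m) ℝ
  have hdir : ∀ ξ : Euc m, ∀ᵐ x, x ∈ B → ⟪G x, ξ⟫ - fderiv ℝ v x ξ = 0 := by
    intro ξ
    have hl1 : LocallyIntegrableOn (fun x => ⟪G x, ξ⟫) B := by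
      intro x hx
      obtain ⟨s, hs, hi⟩ := (hG.2.1.mono_set hBΩ) x hx
      exact ⟨s, hs, hi.inner_const ξ⟩
    have hl2 : LocallyIntegrable (fun x => fderiv ℝ v x ξ) := by
      refine (hv.locallyIntegrable_lineDeriv (μ := volume) ξ).congr ?_
      filter_upwards [hv.ae_differentiableAt (μ := volume)] with x hx
      exact hx.lineDeriv_eq_fderiv
    refine hB.ae_eq_zero_of_integral_contDiff_smul_eq_zero
      (hl1.sub (hl2.locallyIntegrableOn B)) ?_
    intro η hηs hηc hηB
    obtain ⟨D, hD⟩ := ContDiff.lipschitzWith_of_hasCompactSupport hηc hηs (by simp)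
    have h1 := hG.2.2 η hηs hηc (hηB.trans hBΩ) ξ
    have h2 := integral_mul_fderiv hv hD hηc ξ
    have hz : ∀ x, x ∉ tsupport η → η x = 0 := fun x hx => image_eq_zero_of_notMem_tsupport hx
    rw [setIntegral_eq_integral_of_zero, setIntegral_eq_integral_of_zero] at h1
    · have h3 : ∫ x, u x * fderiv ℝ η x ξ = ∫ x, v x * fderiv ℝ η x ξ := by
        refine integral_congr_ae (Eventually.of_forall fun x => ?_)
        by_cases hx : x ∈ B
        · simp only [huv hx]
        · simp [fderiv_eq_zero_of_notMem fun h => hx (hηB h)]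
      have hi1 : Integrable fun x => ⟪G x, ξ⟫ * η x := by
        have h4 : IntegrableOn (fun x => ⟪G x, ξ⟫ * η x) (tsupport η) :=
          (hl1.integrableOn_compact_subset hηB hηc.isCompact).mul_continuousOn
            hηs.continuous.continuousOn hηc.isCompact
        refine (integrableOn_iff_integrable_of_support_subset ?_).1 h4
        exact (Function.support_mul_subset_right _ _).trans (subset_tsupport η)
      have hi2 : Integrable fun x => fderiv ℝ v x ξ * η x := by
        simpa [mul_comm] using
          hl2.integrable_smul_left_of_hasCompactSupport hηs.continuous hηc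
      have h5 : ∫ x, η x • (⟪G x, ξ⟫ - fderiv ℝ v x ξ) =
          (∫ x, ⟪G x, ξ⟫ * η x) - ∫ x, fderiv ℝ v x ξ * η x := by
        rw [← integral_sub hi1 hi2]
        refine integral_congr_ae (Eventually.of_forall fun x => ?_)
        simp only [smul_eq_mul]
        ring
      rw [h5]
      linarith
    · intro x hx
      simp [hz x fun h => hx (hBΩ (hηB h))]
    · intro x hx
      simp [fderiv_eq_zero_of_notMem fun h => hx (hBΩ (hηB h))]
  have hall : ∀ᵐ x, ∀ i, x ∈ B → ⟪G x, b i⟫ - fderiv ℝ v x (b i) = 0 :=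
    ae_all_iff.2 fun i => hdir (b i)
  filter_upwards [hall] with x hx hxB
  refine ContinuousLinearMap.coe_injective (b.toBasis.ext fun i => ?_)
  simpa [sub_eq_zero] using hx i hxB

/-- Adding a Lipschitz function. -/
theorem IsWeakGradient.add_lipschitz (hG : IsWeakGradient Ω u G)
    {ψ : Euc m → ℝ} {K : ℝ≥0} (hψ : LipschitzWith K ψ) :
    IsWeakGradient Ω (fun x => u x + ψ x) (fun x => G x + gradient ψ x) := by
  have hgi : LocallyIntegrable (gradient ψ) := by
    have hm : AEStronglyMeasurable (gradient ψ) volume :=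
      ((InnerProductSpace.toDual ℝ (Euc m)).symm.continuous.measurable.comp
        (measurable_fderiv ℝ ψ)).aestronglyMeasurable
    refine (locallyIntegrable_const (K : ℝ)).mono hm (Eventually.of_forall fun x => ?_)
    rw [gradient, LinearIsometryEquiv.norm_map, NNReal.norm_eq]
    exact norm_fderiv_le_of_lipschitz ℝ hψ
  refine ⟨hG.1.add (hψ.continuous.locallyIntegrable.locallyIntegrableOn Ω),
    hG.2.1.add (hgi.locallyIntegrableOn Ω), fun η hηs hηc hηΩ ξ => ?_⟩
  obtain ⟨D, hD⟩ := ContDiff.lipschitzWith_of_hasCompactSupport hηc hηs (by simp)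
  have h1 := hG.2.2 η hηs hηc hηΩ ξ
  have h2 := integral_mul_fderiv hψ hD hηc ξ
  have hz : ∀ x, x ∉ Ω → η x = 0 := fun x hx =>
    image_eq_zero_of_notMem_tsupport fun h => hx (hηΩ h)
  have hz' : ∀ x, x ∉ Ω → fderiv ℝ η x = 0 := fun x hx =>
    fderiv_eq_zero_of_notMem fun h => hx (hηΩ h)
  have hdc : Continuous fun x => fderiv ℝ η x ξ :=
    (hηs.continuous_fderiv (by simp)).clm_apply continuous_const
  have aux : ∀ (f g : Euc m → ℝ), LocallyIntegrableOn f Ω → Continuous g →
      (∀ x, x ∉ tsupport η → g x = 0) → IntegrableOn (fun x => f x * g x) Ω := by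
    intro f g hf hg hg0
    have h4 : IntegrableOn (fun x => f x * g x) (tsupport η) :=
      (hf.integrableOn_compact_subset hηΩ hηc.isCompact).mul_continuousOn
        hg.continuousOn hηc.isCompact
    refine ((integrableOn_iff_integrable_of_support_subset ?_).1 h4).integrableOn
    intro x hx
    by_contra h
    exact hx (by simp [hg0 x h])
  have aux2 : ∀ F : Euc m → Euc m, LocallyIntegrableOn F Ω →
      LocallyIntegrableOn (fun x => ⟪F x, ξ⟫) Ω := by
    intro F hF x hx
    obtain ⟨s, hs, hi⟩ := hF x hx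
    exact ⟨s, hs, hi.inner_const ξ⟩
  have hd0 : ∀ x, x ∉ tsupport η → fderiv ℝ η x ξ = 0 := fun x hx => by
    simp [fderiv_eq_zero_of_notMem hx]
  have hη0 : ∀ x, x ∉ tsupport η → η x = 0 := fun x hx => image_eq_zero_of_notMem_tsupport hx
  simp only [add_mul, inner_add_left]
  rw [integral_add (aux _ _ hG.1 hdc hd0)
      (aux _ _ (hψ.continuous.locallyIntegrable.locallyIntegrableOn Ω) hdc hd0),
    integral_add (aux _ _ (aux2 _ hG.2.1) hηs.continuous hη0)
      (aux _ _ (aux2 _ (hgi.locallyIntegrableOn Ω)) hηs.continuous hη0), h1,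
    setIntegral_eq_integral_of_zero (f := fun x => ψ x * fderiv ℝ η x ξ)
      (fun x hx => by simp [hz' x hx]),
    setIntegral_eq_integral_of_zero (f := fun x => ⟪gradient ψ x, ξ⟫ * η x)
      (fun x hx => by simp [hz x hx]), h2]
  simp only [gradient, InnerProductSpace.toDual_symm_apply]
  ring

end Pool.Agent.Lib.MP_84d657_an
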