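import Pool.Agent.Lib.MP_84d657_an.Comp
import Pool.Agent.Lib.MP_84d657_an.Grad

/-!
The area gain of the competitor and the estimate of the source term.
-/

open Set MeasureTheory Filter Topology Metric
open scoped ENNReal NNReal RealInnerProductSpace

namespace Pool.Agent.Lib.MP_84d657_an

variable {n : ℕ} {e : Euc (n + 1)} {u : Euc (n + 1) → ℝ} {L η d a : ℝ}

theorem fderiv_eq_zero_of_nonneg {m : ℕ} {f : Euc m → ℝ} (hf : ∀ x, 0 ≤ f x) {x : Euc m}
    (hx : f x = 0) : fderiv ℝ f x = 0 :=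
  IsLocalMin.fderiv_eq_zero (Eventually.of_forall fun y => by simpa [hx] using hf y)

namespace Data

theorem fderiv_add_of_pos (H : Data n e u L η d a) {w : Euc (n + 1)}
    (hw : 0 < pert n u L a w) (hu : DifferentiableAt ℝ u w) :
    fderiv ℝ u w + fderiv ℝ (pert n u L a) w =
      (-slope n a ‖w‖) • (‖w‖⁻¹ • innerSL ℝ w) := by
  have hw0 : w ≠ 0 := by
    have := (H.of_pos hw).1
    exact norm_pos_iff.1 (by linarith [H.hL])
  rw [(H.eventuallyEq_of_pos hw).fderiv_eq,
    ((hasFDerivAt_barrier (L := L) H.ha hw0).fun_sub hu.hasFDerivAt).fderiv]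
  abel

theorem norm_fderiv_add_of_pos (H : Data n e u L η d a) {w : Euc (n + 1)}
    (hw : 0 < pert n u L a w) (hu : DifferentiableAt ℝ u w) :
    ‖fderiv ℝ u w + fderiv ℝ (pert n u L a) w‖ = slope n a ‖w‖ := by
  have hw0 : 0 < ‖w‖ := by linarith [(H.of_pos hw).1, H.hL]
  rw [H.fderiv_add_of_pos hw hu, norm_smul, norm_smul, innerSL_apply_norm, norm_neg, norm_inv,
    norm_norm, inv_mul_cancel₀ hw0.ne', mul_one, Real.norm_of_nonneg (slope_pos H.ha _).le]

theorem ae_norm_le (H : Data n e u L η d a) :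
    ∀ᵐ w, ‖fderiv ℝ u w + fderiv ℝ (pert n u L a) w‖ ≤ 1 := by
  filter_upwards [H.hu.ae_differentiableAt (μ := volume)] with w hw
  rcases (pert_nonneg (u := u) (L := L) (a := a) w).eq_or_lt with h | h
  · rw [fderiv_eq_zero_of_nonneg pert_nonneg h.symm, add_zero]
    exact norm_fderiv_le_of_lipschitz ℝ H.hu
  · rw [H.norm_fderiv_add_of_pos h hw]
    exact slope_le_one H.ha _

/-- The two calibration inequalities. -/
theorem pointwise (H : Data n e u L η d a) {w : Euc (n + 1)}
    (hw : 0 < pert n u L a w) (hu : DifferentiableAt ℝ u w) :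
    √(1 - ‖fderiv ℝ u w‖ ^ 2) - √(1 - ‖fderiv ℝ u w + fderiv ℝ (pert n u L a) w‖ ^ 2) ≤
        -(a * ((‖w‖ ^ (n + 1))⁻¹ * fderiv ℝ (pert n u L a) w w)) ∧
      √(1 - ‖fderiv ℝ u w‖ ^ 2) - √(1 - ‖fderiv ℝ u w + fderiv ℝ (pert n u L a) w‖ ^ 2) ≤
        -(a * ((‖w‖ ^ (n + 1))⁻¹ * fderiv ℝ (pert n u L a) w w)) / 2 + (2 * L) ^ n / a := by
  have ha := H.ha
  have hL := H.hL
  obtain ⟨h1, h2, -, -⟩ := H.of_pos hw
  have hR : 0 < ‖w‖ := by linarith
  set R := ‖w‖ with hRd
  set x := R ^ n with hx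
  have hx0 : 0 < x := by positivity
  set S := √(a ^ 2 + x ^ 2) with hS
  have hS0 : 0 < S := ha.trans_le (le_sqrt_add ha x)
  have hS2 : S ^ 2 = a ^ 2 + x ^ 2 := Real.sq_sqrt (by positivity)
  have hsl : slope n a R = a / S := rfl
  set c := -(fderiv ℝ u w w) / R with hc
  have hq : ‖fderiv ℝ u w‖ ≤ 1 := norm_fderiv_le_of_lipschitz ℝ H.hu
  have hcq : |c| ≤ ‖fderiv ℝ u w‖ := by
    rw [hc, abs_div, abs_neg, abs_of_pos hR, div_le_iff₀ hR]
    exact (fderiv ℝ u w).le_opNorm w
  have hN : √(1 - ‖fderiv ℝ u w‖ ^ 2) ^ 2 + c ^ 2 ≤ 1 := by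
    rw [Real.sq_sqrt (by nlinarith [norm_nonneg (fderiv ℝ u w)]), ← sq_abs c]
    nlinarith [abs_nonneg c]
  have hM : √(1 - ‖fderiv ℝ u w + fderiv ℝ (pert n u L a) w‖ ^ 2) = x / S := by
    rw [H.norm_fderiv_add_of_pos hw hu, hsl, Real.sqrt_eq_iff_mul_self_eq_of_pos (by positivity)]
    field_simp
    linarith
  have hT : -(a * ((R ^ (n + 1))⁻¹ * fderiv ℝ (pert n u L a) w w)) = a / x * (a / S - c) := by
    have h3 : fderiv ℝ u w w + fderiv ℝ (pert n u L a) w w = -(a / S) * R := by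
      have := congrArg (fun T : Euc (n + 1) →L[ℝ] ℝ => T w) (H.fderiv_add_of_pos hw hu)
      simp only [add_apply, smul_apply, innerSL_apply_apply, real_inner_self_eq_norm_sq,
        smul_eq_mul] at this
      rw [this, hsl, ← hRd]
      field_simp
    have h4 : fderiv ℝ (pert n u L a) w w = (c - a / S) * R := by
      rw [hc]
      field_simp
      field_simp at h3
      linarith
    rw [h4, pow_succ, ← hx]
    field_simp
    ring
  rw [hM, hT]
  have h5 : x / a ≤ (2 * L) ^ n / a := by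
    rw [hx]
    gcongr
    linarith [H.hηL]
  exact ⟨by linarith [calib_le hx0 hS0 hS2 hN], by linarith [calib_le' ha hx0 hS0 hS2 hN]⟩

theorem integrable_area (H : Data n e u L η d a) :
    Integrable fun w => √(1 - ‖fderiv ℝ u w‖ ^ 2) -
      √(1 - ‖fderiv ℝ u w + fderiv ℝ (pert n u L a) w‖ ^ 2) := by
  have hm1 := measurable_fderiv ℝ u
  have hm2 := measurable_fderiv ℝ (pert n u L a)
  have h1 : IntegrableOn (fun w => √(1 - ‖fderiv ℝ u w‖ ^ 2) -
      √(1 - ‖fderiv ℝ u w + fderiv ℝ (pert n u L a) w‖ ^ 2)) (tsupport (pert n u L a)) := by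
    refine Measure.integrableOn_of_bounded (M := 1) H.hasCompactSupport.isCompact.measure_lt_top.ne
      (Measurable.aestronglyMeasurable (by fun_prop)) (Eventually.of_forall fun x => ?_)
    have h2 : ∀ r : ℝ, √(1 - r ^ 2) ≤ 1 := fun r => Real.sqrt_le_one.2 (by nlinarith [sq_nonneg r])
    rw [Real.norm_eq_abs, abs_le]
    constructor
    · linarith [h2 ‖fderiv ℝ u x + fderiv ℝ (pert n u L a) x‖,
        Real.sqrt_nonneg (1 - ‖fderiv ℝ u x‖ ^ 2)]
    · linarith [h2 ‖fderiv ℝ u x‖,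
        Real.sqrt_nonneg (1 - ‖fderiv ℝ u x + fderiv ℝ (pert n u L a) x‖ ^ 2)]
  refine (integrableOn_iff_integrable_of_support_subset ?_).1 h1
  intro x hx
  by_contra h
  exact hx (by simp [fderiv_eq_zero_of_notMem h])

/-- The gain of area. -/
theorem gain (H : Data n e u L η d a) :
    ∫ w, (√(1 - ‖fderiv ℝ u w‖ ^ 2) - √(1 - ‖fderiv ℝ u w + fderiv ℝ (pert n u L a) w‖ ^ 2)) ≤
      (3 * η * (2 * L) ^ n * 4 ^ n - cSmall n L * L / (48 * (2 * L) ^ (n + 1))) *
        (√(cSmall n L * η / 2) ^ n * volume.real (cyl e 0 1 1) / a ^ (n + 1)) := by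
  have ha := H.ha
  have hL := H.hL
  have hη := H.hη
  have hc := H.cSmall_pos
  obtain ⟨K, hK⟩ := H.lipschitz_pert
  set ψ := pert n u L a with hψ
  set g := wt n e L η a with hg
  have hgs : ContDiff ℝ 1 g := by
    have h1 : ContDiff ℝ 1 fun y : Euc (n + 1) => ⟪e, y⟫ := (innerSL ℝ e).contDiff
    have h2 : ContDiff ℝ 1 fun y : Euc (n + 1) => ‖y‖ ^ 2 := contDiff_norm_sq ℝ
    exact (((h1.neg.sub contDiff_const).add contDiff_const).sub
      (contDiff_const.mul (h2.sub (h1.pow 2)))).div_const _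
  obtain ⟨D, hD⟩ := exists_lipschitz_mul hK H.hasCompactSupport fun x _ => hgs.contDiffAt
  set ζ : Euc (n + 1) → ℝ := fun w => max (g w * ψ w) 0 with hζ
  have hζL : LipschitzWith D ζ := hD.max_const 0
  have hζs : tsupport ζ ⊆ tsupport ψ := by
    refine closure_mono fun w hw h => hw ?_
    simp [hζ, h]
  have hζc : HasCompactSupport ζ :=
    H.hasCompactSupport.isCompact.of_isClosed_subset (isClosed_tsupport _) hζs
  obtain ⟨hi₁, hz₁⟩ := integral_radial hK H.hasCompactSupport H.zero_notMem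
  obtain ⟨hi₂, hz₂⟩ := integral_radial hζL hζc fun h => H.zero_notMem (hζs h)
  set μ₀ := √(cSmall n L * η / 2) / a with hμ₀
  have hμ₀0 : 0 < μ₀ := by positivity
  set A := cyl e (-L + η) (-L + 3 * η / 2) μ₀ with hA
  set B := cyl e (-L - η) (-L + 2 * η) (4 * μ₀) with hB
  have hAm : MeasurableSet A := (isClosed_cyl _ _ _ _).measurableSet
  have hBm : MeasurableSet B := (isClosed_cyl _ _ _ _).measurableSet
  have hAf : volume A < ⊤ := volume_cyl_lt_top H.he (by linarith) hμ₀0
  have hBf : volume B < ⊤ := volume_cyl_lt_top H.he (by linarith) (by positivity)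
  set κ₁ := a / 2 * (((2 * L) ^ (n + 1))⁻¹ * (cSmall n L / (2 * a ^ 2) * (L / (6 * η)))) with hκ₁
  set κ₂ := (2 * L) ^ n / a with hκ₂
  have hκ₂0 : 0 ≤ κ₂ := by positivity
  have hiA : Integrable (A.indicator fun _ => κ₁) :=
    (integrableOn_const hAf.ne).integrable_indicator hAm
  have hiB : Integrable (B.indicator fun _ => κ₂) :=
    (integrableOn_const hBf.ne).integrable_indicator hBm
  have hle : ∀ᵐ w, √(1 - ‖fderiv ℝ u w‖ ^ 2) - √(1 - ‖fderiv ℝ u w + fderiv ℝ ψ w‖ ^ 2) ≤
      (-a * ((‖w‖ ^ (n + 1))⁻¹ * fderiv ℝ ψ w w) +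
        a / 2 * ((‖w‖ ^ (n + 1))⁻¹ * fderiv ℝ ζ w w)) +
      (B.indicator (fun _ => κ₂) w - A.indicator (fun _ => κ₁) w) := by
    filter_upwards [H.hu.ae_differentiableAt (μ := volume), hK.ae_differentiableAt (μ := volume)]
      with w hw hwψ
    have hB0 : 0 ≤ B.indicator (fun _ => κ₂) w := indicator_nonneg (fun _ _ => hκ₂0) w
    by_cases hpos : 0 < ψ w ∧ 0 < g w
    · obtain ⟨h1, h2⟩ := hpos
      obtain ⟨h3, h4, h5⟩ := H.of_wt_pos h1 h2
      obtain ⟨h6, h7⟩ := H.pointwise h1 hw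
      obtain ⟨h8, h9, -⟩ := H.of_pos h1
      have hev : ζ =ᶠ[𝓝 w] fun y => g y * ψ y := by
        filter_upwards [hD.continuous.continuousAt.eventually (lt_mem_nhds (mul_pos h2 h1))]
          with y hy using max_eq_left hy.le
      have hdζ : fderiv ℝ ζ w w = g w * fderiv ℝ ψ w w + ψ w * fderiv ℝ g w w := by
        rw [hev.fderiv_eq, fderiv_fun_mul (hgs.differentiable (by simp) w) hwψ]
        simp
      rw [indicator_of_mem h3, hdζ]
      have hR : 0 < ‖w‖ := by linarith
      have hmain : A.indicator (fun _ => κ₁) w ≤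
          a / 2 * ((‖w‖ ^ (n + 1))⁻¹ * (ψ w * fderiv ℝ g w w)) := by
        have h10 : 0 < L / (6 * η) := by positivity
        by_cases hwA : w ∈ A
        · rw [indicator_of_mem hwA, hκ₁]
          have h11 := (H.of_mem_main hwA).1
          have h12 : ((2 * L) ^ (n + 1))⁻¹ ≤ (‖w‖ ^ (n + 1))⁻¹ := by
            gcongr
            linarith [H.hηL]
          gcongr
        · rw [indicator_of_notMem hwA]
          have : 0 ≤ fderiv ℝ g w w := h10.le.trans h5
          positivity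
      set T := (‖w‖ ^ (n + 1))⁻¹ * fderiv ℝ ψ w w with hT
      set Q := √(1 - ‖fderiv ℝ u w‖ ^ 2) - √(1 - ‖fderiv ℝ u w + fderiv ℝ ψ w‖ ^ 2) with hQ
      have h13 : g w * Q ≤ g w * (-(a * T) / 2 + κ₂) := mul_le_mul_of_nonneg_left h7 h2.le
      have h14 : (1 - g w) * Q ≤ (1 - g w) * (-(a * T)) :=
        mul_le_mul_of_nonneg_left h6 (by linarith)
      have h15 : g w * κ₂ ≤ κ₂ := mul_le_of_le_one_left hκ₂0 h4
      have h16 : a / 2 * ((‖w‖ ^ (n + 1))⁻¹ * (g w * fderiv ℝ ψ w w + ψ w * fderiv ℝ g w w)) =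
          g w * (a * T) / 2 + a / 2 * ((‖w‖ ^ (n + 1))⁻¹ * (ψ w * fderiv ℝ g w w)) := by
        rw [hT]
        ring
      rw [h16]
      nlinarith
    · have hwA : w ∉ A := by
        intro h
        obtain ⟨h1, h2⟩ := H.of_mem_main h
        exact hpos ⟨lt_of_lt_of_le (by positivity) h1, h2⟩
      have hψ0 : 0 ≤ ψ w := pert_nonneg w
      have hζ0 : ζ w = 0 := by
        refine max_eq_right ?_
        rcases hψ0.eq_or_lt with h | h
        · rw [← h, mul_zero]
        · exact mul_nonpos_of_nonpos_of_nonneg (not_lt.1 fun h' => hpos ⟨h, h'⟩) hψ0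
      rw [indicator_of_notMem hwA, fderiv_eq_zero_of_nonneg (f := ζ) (fun y => le_max_right _ _) hζ0]
      rcases hψ0.eq_or_lt with h | h
      · rw [fderiv_eq_zero_of_nonneg pert_nonneg h.symm]
        simpa using hB0
      · have := (H.pointwise h hw).1
        simp only [zero_apply, mul_zero, add_zero, sub_zero]
        linarith
  have hi₃ := (hi₁.const_mul (-a)).fun_add (hi₂.const_mul (a / 2))
  have hi₄ : Integrable fun w => B.indicator (fun _ => κ₂) w - A.indicator (fun _ => κ₁) w :=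
    hiB.sub hiA
  have h1 := integral_mono_ae H.integrable_area (hi₃.fun_add hi₄) hle
  rw [integral_add hi₃ hi₄, integral_add (hi₁.const_mul _) (hi₂.const_mul _), integral_const_mul,
    integral_const_mul, hz₁, hz₂, integral_sub hiB hiA, integral_indicator_const _ hAm,
    integral_indicator_const _ hBm, hA, hB, volume_real_cyl H.he (by linarith) hμ₀0,
    volume_real_cyl H.he (by linarith) (by positivity)] at h1
  refine h1.trans (le_of_eq ?_)
  simp only [smul_eq_mul, hκ₁, hκ₂, hμ₀, mul_pow, div_pow]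
  field_simp
  ring

/-- The source term. -/
theorem source {k : ℕ} (hn : n = k + 1)
    (H : Data n e u L η d a) {ρ : Euc (n + 1) → ℝ} (hρ : Integrable ρ)
    (hρn : Integrable fun w => |ρ w| ^ n) {ε : ℝ} (hε : 0 < ε) :
    -∫ w, ρ w * pert n u L a w ≤ cBig n L *
      (ε * (4 * L * √(12 * L * cBig n L) ^ n * volume.real (cyl e 0 1 1)) +
        (∫ w in cyl e (-(2 * L)) (2 * L) (√(12 * L * cBig n L) / a), |ρ w| ^ n) /
          ε ^ k) / a ^ (n + 1) := by
  subst hn
  have ha := H.ha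
  have hL := H.hL
  have hC := H.cBig_pos
  obtain ⟨K, hK⟩ := H.lipschitz_pert
  set T := cyl e (-(2 * L)) (2 * L) (√(12 * L * cBig (k + 1) L) / a) with hT
  have hTm : MeasurableSet T := (isClosed_cyl _ _ _ _).measurableSet
  have hr : 0 < √(12 * L * cBig (k + 1) L) / a := by positivity
  have hTf : volume T < ⊤ := volume_cyl_lt_top H.he (by linarith) hr
  have hi : Integrable fun w => ρ w * pert (k + 1) u L a w := by
    simpa [mul_comm] using hρ.locallyIntegrable.integrable_smul_left_of_hasCompactSupport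
      hK.continuous H.hasCompactSupport
  set τ := ε * a with hτ
  have hτ0 : 0 < τ := by positivity
  have hc : IntegrableOn (fun _ => τ) T := integrableOn_const hTf.ne
  have hn : IntegrableOn (fun w => |ρ w| ^ (k + 1) / τ ^ k) T := (hρn.div_const _).integrableOn
  have hi2 : IntegrableOn (fun w => cBig (k + 1) L / a ^ 2 * (τ + |ρ w| ^ (k + 1) / τ ^ k)) T :=
    (Integrable.fun_add hc hn).const_mul _
  have hle : ∀ w, -(ρ w * pert (k + 1) u L a w) ≤
      T.indicator (fun w => cBig (k + 1) L / a ^ 2 * (τ + |ρ w| ^ (k + 1) / τ ^ k)) w := by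
    intro w
    rcases (pert_nonneg (u := u) (L := L) (a := a) w).eq_or_lt with h | h
    · rw [← h, mul_zero, neg_zero]
      exact indicator_nonneg (fun _ _ => by positivity) w
    · rw [indicator_of_mem (H.mem_tube h)]
      have h1 : pert (k + 1) u L a w ≤ cBig (k + 1) L / a ^ 2 := by
        rw [H.eq_of_pos h]
        exact (H.of_pos h).2.2.2
      have h2 : |ρ w| ≤ τ + |ρ w| ^ (k + 1) / τ ^ k := by
        rcases le_or_gt |ρ w| τ with h3 | h3
        · exact h3.trans (le_add_of_nonneg_right (by positivity))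
        · refine le_trans ?_ (le_add_of_nonneg_left hτ0.le)
          rw [le_div_iff₀ (by positivity), pow_succ']
          gcongr
      calc -(ρ w * pert (k + 1) u L a w) = pert (k + 1) u L a w * -ρ w := by ring
        _ ≤ pert (k + 1) u L a w * |ρ w| := by gcongr; exact neg_le_abs _
        _ ≤ _ := by gcongr
  have h1 := integral_mono hi.neg (hi2.integrable_indicator hTm) hle
  simp only [Pi.neg_apply] at h1
  rw [integral_neg, integral_indicator hTm, integral_const_mul, integral_add hc hn, integral_div,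
    setIntegral_const, hT, volume_real_cyl H.he (by linarith) hr, ← hT] at h1
  refine h1.trans (le_of_eq ?_)
  generalize (∫ w in T, |ρ w| ^ (k + 1)) = I
  simp only [smul_eq_mul, hτ, mul_pow, div_pow]
  field_simp
  ring

end Data

/-- The core comparison: at an interior end point of a light segment the action can be lowered. -/
theorem core {k : ℕ} (hn : n = k + 1) (he : ‖e‖ = 1)
    (hu : LipschitzWith 1 u) (hL : 0 < L) (right : u (L • e) = L) (left : u ((-L) • e) = -L)
    (beyond : ∀ η, 0 < η → η ≤ L / 16 → -(L + η) < u ((-(L + η)) • e))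
    {ρ : Euc (n + 1) → ℝ} (hρ : Integrable ρ) (hρn : Integrable fun w => |ρ w| ^ n) :
    ∃ (ψ : Euc (n + 1) → ℝ) (K : ℝ≥0), LipschitzWith K ψ ∧
      tsupport ψ ⊆ closedBall 0 (2 * L) ∧ (∀ᵐ w, ‖fderiv ℝ u w + fderiv ℝ ψ w‖ ≤ 1) ∧
      ∫ w, (√(1 - ‖fderiv ℝ u w‖ ^ 2) - √(1 - ‖fderiv ℝ u w + fderiv ℝ ψ w‖ ^ 2)) <
        ∫ w, ρ w * ψ w := by
  have hc : 0 < cSmall n L := by unfold cSmall; positivity
  have hC : 0 < cBig n L := by unfold cBig; positivity
  have hV := volume_cyl_unit_pos he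
  set V := volume.real (cyl e 0 1 1) with hVd
  set γ := cSmall n L * L / (96 * (2 * L) ^ (n + 1)) with hγ
  have hγ0 : 0 < γ := by positivity
  set η := min (L / 16) (γ / (3 * (2 * L) ^ n * 4 ^ n)) with hη
  have hη0 : 0 < η := lt_min (by positivity) (by positivity)
  have hη1 : η ≤ L / 16 := min_le_left _ _
  have hη2 : 3 * η * (2 * L) ^ n * 4 ^ n ≤ γ := by
    have : η ≤ γ / (3 * (2 * L) ^ n * 4 ^ n) := min_le_right _ _
    rw [le_div_iff₀ (by positivity)] at this
    linarith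
  set d := u ((-(L + η)) • e) + (L + η) with hd
  have hd0 : 0 < d := by linarith [beyond η hη0 hη1]
  set c₃ := γ * (√(cSmall n L * η / 2) ^ n * V) with hc₃
  have hc₃0 : 0 < c₃ := by positivity
  set r := √(12 * L * cBig n L) with hr
  have hr0 : 0 < r := by positivity
  set ε := c₃ / 3 / (cBig n L * (4 * L * r ^ n * V)) with hε
  have hε0 : 0 < ε := by positivity
  have hinv : Tendsto (fun a : ℝ => cBig n L / a ^ 2) atTop (𝓝 0) :=
    tendsto_const_nhds.div_atTop (tendsto_pow_atTop two_ne_zero)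
  have hvol : Tendsto (volume ∘ fun a : ℝ => cyl e (-(2 * L)) (2 * L) (r / a)) atTop (𝓝 0) := by
    have h1 : Tendsto (fun a : ℝ => (2 * L - -(2 * L)) * (r / a) ^ n) atTop (𝓝 0) := by
      have h2 : Tendsto (fun a : ℝ => r / a) atTop (𝓝 0) := tendsto_const_nhds.div_atTop tendsto_id
      simpa [zero_pow (show n ≠ 0 by omega)] using (h2.pow n).const_mul (2 * L - -(2 * L))
    have h3 := ENNReal.Tendsto.mul_const (b := volume (cyl e 0 1 1)) (ENNReal.tendsto_ofReal h1)
      (Or.inr (volume_cyl_unit_lt_top e).ne)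
    rw [ENNReal.ofReal_zero, zero_mul] at h3
    refine h3.congr' ?_
    filter_upwards [eventually_gt_atTop 0] with a ha
    exact (volume_cyl he (by linarith) (by positivity)).symm
  have hI := hρn.tendsto_setIntegral_nhds_zero hvol
  have hI' : Tendsto (fun a : ℝ => cBig n L *
      ((∫ w in cyl e (-(2 * L)) (2 * L) (r / a), |ρ w| ^ n) / ε ^ k)) atTop (𝓝 0) := by
    simpa using (hI.div_const (ε ^ k)).const_mul (cBig n L)
  have h12 : Tendsto (fun a : ℝ => 12 * L * (cBig n L / a ^ 2)) atTop (𝓝 0) := by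
    simpa using hinv.const_mul (12 * L)
  obtain ⟨a, ha, h1, h2, h3, h4, h5⟩ := ((eventually_gt_atTop 0).and
    ((eventually_ge_atTop ((2 * L) ^ n)).and
    ((hinv.eventually_le_const (show (0 : ℝ) < L / 4 by positivity)).and
    ((h12.eventually_le_const (show (0 : ℝ) < (d / 2) ^ 2 by positivity)).and
    ((hinv.eventually_le_const (show (0 : ℝ) < d / 2 by positivity)).and
    (hI'.eventually_le_const (show (0 : ℝ) < c₃ / 3 by positivity))))))).exists
  have H : Data n e u L η d a :=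
    ⟨he, hu, hL, hη0, hη1, hd0, ha, right, left, by rw [hd]; linarith, h1, h2, h3, h4⟩
  obtain ⟨K, hK⟩ := H.lipschitz_pert
  refine ⟨pert n u L a, K, hK, H.tsupport_subset.trans inter_subset_right, H.ae_norm_le, ?_⟩
  have h6 := H.gain
  have h7 := H.source hn hρ hρn hε0
  have h8 : (3 * η * (2 * L) ^ n * 4 ^ n - cSmall n L * L / (48 * (2 * L) ^ (n + 1))) *
      (√(cSmall n L * η / 2) ^ n * V / a ^ (n + 1)) ≤ -c₃ / a ^ (n + 1) := by
    have h9 : cSmall n L * L / (48 * (2 * L) ^ (n + 1)) = 2 * γ := by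
      rw [hγ]
      field_simp
      ring
    rw [h9]
    calc _ ≤ (-γ) * (√(cSmall n L * η / 2) ^ n * V / a ^ (n + 1)) := by
          gcongr
          linarith
      _ = _ := by
          rw [hc₃]
          ring
  have h10 : cBig n L * (ε * (4 * L * r ^ n * V)) = c₃ / 3 := by
    rw [hε]
    field_simp
  have h11 : cBig n L * (ε * (4 * L * r ^ n * V) +
      (∫ w in cyl e (-(2 * L)) (2 * L) (r / a), |ρ w| ^ n) / ε ^ k) / a ^ (n + 1) <
      c₃ / a ^ (n + 1) := by
    gcongr
    linarith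
  rw [neg_div] at h8
  linarith

end Pool.Agent.Lib.MP_84d657_an
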