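import Mathlib

/-!
Definitions for the Born-Infeld minimization problem on a bounded domain of Euclidean space.
-/

open Set MeasureTheory
open scoped ContDiff ENNReal RealInnerProductSpace

namespace Pool.Agent.Lib.MP_84d657_an

/-- Euclidean space `ℝ ^ m`. -/
abbrev Euc (m : ℕ) : Type := EuclideanSpace ℝ (Fin m)

variable {m : ℕ}

/-- `z 0, ..., z k` are the vertices of a piecewise affine path from `x` to `y` all of whose points
other than the two end points lie in `Ω`. -/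
def IsPolyPath (Ω : Set (Euc m)) (x y : Euc m) (k : ℕ) (z : ℕ → Euc m) : Prop :=
  0 < k ∧ z 0 = x ∧ z k = y ∧ (∀ i, i < k → openSegment ℝ (z i) (z (i + 1)) ⊆ Ω) ∧
    ∀ i, 0 < i → i < k → z i ∈ Ω

/-- The infimum of the lengths of piecewise affine paths from `x` to `y` with interior in `Ω`
(equal to `∞` if there is none). -/
noncomputable def intrinsicDist (Ω : Set (Euc m)) (x y : Euc m) : ℝ≥0∞ :=
  ⨅ (k : ℕ) (z : ℕ → Euc m) (_ : IsPolyPath Ω x y k z),
    ∑ i ∈ Finset.range k, edist (z i) (z (i + 1))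

/-- The class `𝒮(∂Ω)` of strictly spacelike boundary data. -/
def SpacelikeData (Ω : Set (Euc m)) (φ : Euc m → ℝ) : Prop :=
  ContinuousOn φ (frontier Ω) ∧
    ∀ x ∈ frontier Ω, ∀ y ∈ frontier Ω, x ≠ y → edist (φ x) (φ y) < intrinsicDist Ω x y

/-- `G` is the weak (distributional) gradient of `v` on `Ω`. -/
def IsWeakGradient (Ω : Set (Euc m)) (v : Euc m → ℝ) (G : Euc m → Euc m) : Prop :=
  LocallyIntegrableOn v Ω ∧ LocallyIntegrableOn G Ω ∧
    ∀ η : Euc m → ℝ, ContDiff ℝ ∞ η → HasCompactSupport η → tsupport η ⊆ Ω → ∀ ξ : Euc m,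
      ∫ x in Ω, v x * fderiv ℝ η x ξ = -∫ x in Ω, ⟪G x, ξ⟫ * η x

/-- `v` belongs to the class `𝒴_φ(Ω)` and `G` is its weak gradient. -/
structure Admissible (Ω : Set (Euc m)) (φ v : Euc m → ℝ) (G : Euc m → Euc m) : Prop where
  continuousOn : ContinuousOn v (closure Ω)
  boundary : EqOn v φ (frontier Ω)
  weak : IsWeakGradient Ω v G
  norm_le : ∀ᵐ x ∂(volume.restrict Ω), ‖G x‖ ≤ 1

/-- The Born-Infeld action `I_ρ` of a function `v` with weak gradient `G`. -/
noncomputable def action (Ω : Set (Euc m)) (ρ v : Euc m → ℝ) (G : Euc m → Euc m) : ℝ :=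
  (∫ x in Ω, (1 - √(1 - ‖G x‖ ^ 2))) - ∫ x in Ω, ρ x * v x

/-- `u`, with weak gradient `G`, minimizes the action `I_ρ` in the class `𝒴_φ(Ω)`. -/
def IsMinimizer (Ω : Set (Euc m)) (φ ρ u : Euc m → ℝ) (G : Euc m → Euc m) : Prop :=
  Admissible Ω φ u G ∧ ∀ v H, Admissible Ω φ v H → action Ω ρ u G ≤ action Ω ρ v H

end Pool.Agent.Lib.MP_84d657_an
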