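import Pool.Agent.Lib.MP_84d657_an.Weak

/-!
Volumes of cylinders and the profile of the radial barrier.
-/

open Set MeasureTheory Filter Topology Metric
open scoped ENNReal NNReal RealInnerProductSpace

namespace Pool.Agent.Lib.MP_84d657_an

variable {m : ℕ}

/-- A cylinder with axis `e`. -/
def cyl (e : Euc m) (a b r : ℝ) : Set (Euc m) :=
  {w | a ≤ ⟪e, w⟫ ∧ ⟪e, w⟫ ≤ b ∧ ‖w‖ ^ 2 - ⟪e, w⟫ ^ 2 ≤ r ^ 2}

theorem isClosed_cyl (e : Euc m) (a b r : ℝ) : IsClosed (cyl e a b r) := by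
  have h1 : Continuous fun w : Euc m => ⟪e, w⟫ := by fun_prop
  have h2 : Continuous fun w : Euc m => ‖w‖ ^ 2 - ⟪e, w⟫ ^ 2 := by fun_prop
  exact (isClosed_le continuous_const h1).inter
    ((isClosed_le h1 continuous_const).inter (isClosed_le h2 continuous_const))

theorem norm_add_smul_sq {e : Euc m} (he : ‖e‖ = 1) (w : Euc m) (s : ℝ) :
    ‖w + s • e‖ ^ 2 = ‖w‖ ^ 2 + 2 * s * ⟪e, w⟫ + s ^ 2 := by
  rw [norm_add_sq_real, inner_smul_right, norm_smul, he, real_inner_comm]
  simp only [Real.norm_eq_abs, mul_one, sq_abs]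
  ring

theorem inner_add_smul {e : Euc m} (he : ‖e‖ = 1) (w : Euc m) (s : ℝ) :
    ⟪e, w + s • e⟫ = ⟪e, w⟫ + s := by
  rw [inner_add_right, inner_smul_right, real_inner_self_eq_norm_sq, he]
  ring

theorem volume_cyl_unit_lt_top (e : Euc m) : volume (cyl e 0 1 1) < ⊤ := by
  refine (measure_mono ?_).trans_lt (measure_closedBall_lt_top (x := (0 : Euc m)) (r := 2))
  rintro w ⟨h1, h2, h3⟩
  rw [mem_closedBall_zero_iff]
  nlinarith [norm_nonneg w]

theorem volume_cyl_unit_pos {e : Euc m} (he : ‖e‖ = 1) : 0 < volume.real (cyl e 0 1 1) := by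
  refine ENNReal.toReal_pos ?_ (volume_cyl_unit_lt_top e).ne
  have hsub : ball ((1 / 2 : ℝ) • e) (1 / 2) ⊆ cyl e 0 1 1 := by
    intro w hw
    rw [mem_ball, dist_eq_norm] at hw
    set z := w - (1 / 2 : ℝ) • e with hz
    have hw' : w = z + (1 / 2 : ℝ) • e := by simp [hz]
    have h1 : |⟪e, z⟫| ≤ ‖z‖ := by simpa [he] using abs_real_inner_le_norm e z
    have h2 := abs_le.1 h1
    rw [hw']
    refine ⟨?_, ?_, ?_⟩
    · rw [inner_add_smul he]
      linarith
    · rw [inner_add_smul he]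
      linarith
    · rw [inner_add_smul he, norm_add_smul_sq he]
      nlinarith [norm_nonneg z, sq_nonneg ⟪e, z⟫]
  exact ((measure_ball_pos volume _ (by norm_num)).trans_le (measure_mono hsub)).ne'

theorem volume_cyl {n : ℕ} {e : Euc (n + 1)} (he : ‖e‖ = 1) {a b r : ℝ} (hab : a < b)
    (hr : 0 < r) :
    volume (cyl e a b r) = ENNReal.ofReal ((b - a) * r ^ n) * volume (cyl e 0 1 1) := by
  have hh : 0 < b - a := sub_pos.2 hab
  set S : Euc (n + 1) →ₗ[ℝ] Euc (n + 1) :=
    r⁻¹ • LinearMap.transvection (innerₛₗ ℝ e) ((r / (b - a) - 1) • e) with hS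
  have hdet : LinearMap.det S = ((b - a) * r ^ n)⁻¹ := by
    rw [hS, LinearMap.det_smul, LinearMap.transvection.det]
    simp only [finrank_euclideanSpace, Fintype.card_fin, map_smul, innerₛₗ_apply_apply,
      real_inner_self_eq_norm_sq, he, smul_eq_mul, inv_pow]
    field_simp
    ring
  have hSw : ∀ w, S w = r⁻¹ • (w + (⟪e, w⟫ * (r / (b - a) - 1)) • e) := by
    intro w
    simp [hS, LinearMap.transvection.apply, smul_smul]
  have heq : cyl e a b r = (fun w => w + (-a) • e) ⁻¹' (S ⁻¹' cyl e 0 1 1) := by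
    ext w
    have h1 : ⟪e, S (w + (-a) • e)⟫ = (⟪e, w⟫ - a) / (b - a) := by
      rw [hSw, inner_smul_right, inner_add_smul he, inner_add_smul he]
      field_simp
      ring
    have h2 : ‖S (w + (-a) • e)‖ ^ 2 - ⟪e, S (w + (-a) • e)⟫ ^ 2 =
        (‖w‖ ^ 2 - ⟪e, w⟫ ^ 2) / r ^ 2 := by
      rw [hSw, inner_smul_right, norm_smul, mul_pow, norm_add_smul_sq he, Real.norm_eq_abs, sq_abs]
      simp only [norm_add_smul_sq he, inner_add_smul he]
      field_simp
      ring
    simp only [cyl, mem_preimage, mem_ofPred_eq]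
    rw [h2, h1, le_div_iff₀ hh, div_le_iff₀ hh, div_le_iff₀ (by positivity)]
    constructor
    · rintro ⟨h3, h4, h5⟩
      exact ⟨by linarith, by linarith, by linarith⟩
    · rintro ⟨h3, h4, h5⟩
      exact ⟨by linarith, by linarith, by linarith⟩
  rw [heq, measure_preimage_add_right, Measure.addHaar_preimage_linearMap _
    (by rw [hdet]; positivity), hdet, inv_inv, abs_of_pos (by positivity)]

theorem volume_cyl_lt_top {n : ℕ} {e : Euc (n + 1)} (he : ‖e‖ = 1) {a b r : ℝ} (hab : a < b)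
    (hr : 0 < r) : volume (cyl e a b r) < ⊤ := by
  rw [volume_cyl he hab hr]
  exact ENNReal.mul_lt_top ENNReal.ofReal_lt_top (volume_cyl_unit_lt_top e)

theorem volume_real_cyl {n : ℕ} {e : Euc (n + 1)} (he : ‖e‖ = 1) {a b r : ℝ} (hab : a < b)
    (hr : 0 < r) :
    volume.real (cyl e a b r) = (b - a) * r ^ n * volume.real (cyl e 0 1 1) := by
  have hh : 0 < b - a := sub_pos.2 hab
  rw [measureReal_def, volume_cyl he hab hr, ENNReal.toReal_mul,
    ENNReal.toReal_ofReal (by positivity), measureReal_def]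

/-! ### The profile -/

/-- The slope of the radial solution with charge `a`. -/
noncomputable def slope (n : ℕ) (a s : ℝ) : ℝ := a / √(a ^ 2 + (s ^ n) ^ 2)

/-- The defect of the radial solution with respect to the light cone. -/
noncomputable def defect (n : ℕ) (a L R : ℝ) : ℝ := ∫ s in (L / 2)..R, (1 - slope n a s)

variable {n : ℕ} {a L : ℝ}

theorem le_sqrt_add (_ : 0 < a) (x : ℝ) : a ≤ √(a ^ 2 + x ^ 2) :=
  Real.le_sqrt_of_sq_le (by nlinarith [sq_nonneg x])

theorem continuous_slope (ha : 0 < a) : Continuous (slope n a) :=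
  continuous_const.div (by fun_prop) fun s => (ha.trans_le (le_sqrt_add ha _)).ne'

theorem slope_pos (ha : 0 < a) (s : ℝ) : 0 < slope n a s :=
  div_pos ha (ha.trans_le (le_sqrt_add ha _))

theorem slope_le_one (ha : 0 < a) (s : ℝ) : slope n a s ≤ 1 :=
  (div_le_one (ha.trans_le (le_sqrt_add ha _))).2 (le_sqrt_add ha _)

theorem one_sub_slope (ha : 0 < a) (s : ℝ) :
    1 - slope n a s = (s ^ n) ^ 2 / (√(a ^ 2 + (s ^ n) ^ 2) * (√(a ^ 2 + (s ^ n) ^ 2) + a)) := by
  have h1 := le_sqrt_add ha (s ^ n)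
  have h2 : √(a ^ 2 + (s ^ n) ^ 2) ^ 2 = a ^ 2 + (s ^ n) ^ 2 := Real.sq_sqrt (by positivity)
  unfold slope
  set S := √(a ^ 2 + (s ^ n) ^ 2)
  have h3 : 0 < S := ha.trans_le h1
  field_simp
  linarith

theorem one_sub_slope_le (ha : 0 < a) (s : ℝ) : 1 - slope n a s ≤ (s ^ n) ^ 2 / (2 * a ^ 2) := by
  rw [one_sub_slope ha]
  have h1 := le_sqrt_add ha (s ^ n)
  refine div_le_div_of_nonneg_left (sq_nonneg _) (by positivity) ?_
  nlinarith

theorem le_one_sub_slope (ha : 0 < a) {s : ℝ} (hs : 0 ≤ s) (hsa : s ^ n ≤ a) :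
    (s ^ n) ^ 2 / (6 * a ^ 2) ≤ 1 - slope n a s := by
  rw [one_sub_slope ha]
  have h1 := le_sqrt_add ha (s ^ n)
  have h2 : √(a ^ 2 + (s ^ n) ^ 2) ≤ 2 * a := by
    refine Real.sqrt_le_iff.2 ⟨by positivity, ?_⟩
    have := pow_nonneg hs n
    nlinarith
  refine div_le_div_of_nonneg_left (sq_nonneg _) (by positivity) ?_
  nlinarith

theorem hasDerivAt_defect (ha : 0 < a) (R : ℝ) :
    HasDerivAt (defect n a L) (1 - slope n a R) R :=
  ((continuous_const.sub (continuous_slope ha)).integral_hasStrictDerivAt _ R).hasDerivAt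

theorem defect_nonpos (ha : 0 < a) {R : ℝ} (hR : R ≤ L / 2) : defect n a L R ≤ 0 := by
  unfold defect
  rw [intervalIntegral.integral_symm, neg_nonpos]
  exact intervalIntegral.integral_nonneg hR fun s _ => sub_nonneg.2 (slope_le_one ha s)

theorem defect_le (ha : 0 < a) (hL : 0 < L) {R : ℝ} (hR : R ≤ 2 * L) :
    defect n a L R ≤ L * ((2 * L) ^ n) ^ 2 / a ^ 2 := by
  rcases le_or_gt R (L / 2) with h | h
  · exact (defect_nonpos ha h).trans (by positivity)
  have h1 : defect n a L R ≤ ∫ _ in (L / 2)..R, ((2 * L) ^ n) ^ 2 / (2 * a ^ 2) := by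
    refine intervalIntegral.integral_mono_on h.le
      ((continuous_const.sub (continuous_slope ha)).intervalIntegrable _ _)
      (continuous_const.intervalIntegrable _ _) fun s hs => (one_sub_slope_le ha s).trans ?_
    have h2 : 0 ≤ s := by linarith [hs.1]
    have h3 : s ≤ 2 * L := hs.2.trans hR
    gcongr
  rw [intervalIntegral.integral_const, smul_eq_mul] at h1
  calc defect n a L R ≤ _ := h1
    _ ≤ (2 * L) * (((2 * L) ^ n) ^ 2 / (2 * a ^ 2)) := by gcongr; linarith
    _ = _ := by ring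

theorem le_defect (ha : 0 < a) (hL : 0 < L) (haL : (2 * L) ^ n ≤ a) {R : ℝ}
    (hR₁ : 3 * L / 4 ≤ R) (hR : R ≤ 2 * L) :
    L * ((L / 2) ^ n) ^ 2 / 24 / a ^ 2 ≤ defect n a L R := by
  have h : L / 2 ≤ R := by linarith
  have h1 : ∫ _ in (L / 2)..R, ((L / 2) ^ n) ^ 2 / (6 * a ^ 2) ≤ defect n a L R := by
    refine intervalIntegral.integral_mono_on h (continuous_const.intervalIntegrable _ _)
      ((continuous_const.sub (continuous_slope ha)).intervalIntegrable _ _) fun s hs => ?_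
    have h2 : 0 ≤ s := by linarith [hs.1]
    have h3 : s ≤ 2 * L := hs.2.trans hR
    refine le_trans ?_ (le_one_sub_slope ha h2 (le_trans (by gcongr) haL))
    have h4 := hs.1
    gcongr
  rw [intervalIntegral.integral_const, smul_eq_mul] at h1
  calc _ = (L / 4) * (((L / 2) ^ n) ^ 2 / (6 * a ^ 2)) := by ring
    _ ≤ (R - L / 2) * (((L / 2) ^ n) ^ 2 / (6 * a ^ 2)) := by gcongr; linarith
    _ ≤ _ := h1

/-- The radial barrier. -/
noncomputable def barrier (n : ℕ) (a L : ℝ) (w : Euc m) : ℝ := defect n a L ‖w‖ - ‖w‖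

theorem lipschitzWith_barrier (ha : 0 < a) : LipschitzWith 1 (barrier n a L : Euc m → ℝ) := by
  have hd : ∀ R, HasDerivAt (fun R => defect n a L R - R) (1 - slope n a R - 1) R :=
    fun R => (hasDerivAt_defect ha R).sub (hasDerivAt_id R)
  have h1 : LipschitzWith 1 fun R => defect n a L R - R := by
    refine lipschitzWith_of_nnnorm_deriv_le (fun R => (hd R).differentiableAt) fun R => ?_
    rw [(hd R).deriv, ← NNReal.coe_le_coe, coe_nnnorm, Real.norm_eq_abs, abs_le]
    have := slope_pos (n := n) ha R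
    have := slope_le_one (n := n) ha R
    constructor <;> simp only [NNReal.coe_one] <;> linarith
  have h2 := h1.comp (lipschitzWith_one_norm (E := Euc m))
  rw [one_mul] at h2
  exact h2

theorem hasFDerivAt_barrier (ha : 0 < a) {w : Euc m} (hw : w ≠ 0) :
    HasFDerivAt (barrier n a L : Euc m → ℝ)
      ((-slope n a ‖w‖) • (‖w‖⁻¹ • innerSL ℝ w)) w := by
  have hd : HasDerivAt (fun R => defect n a L R - R) (-slope n a ‖w‖) ‖w‖ :=
    ((hasDerivAt_defect ha ‖w‖).sub (hasDerivAt_id ‖w‖)).congr_deriv (by ring)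
  exact hd.comp_hasFDerivAt w (hasFDerivAt_norm_of_ne hw)

end Pool.Agent.Lib.MP_84d657_an
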