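import Pool.Agent.Lib.MP_84d657_an.Core

/-!
Minimizers have no light segments.
-/

open Set MeasureTheory Filter Topology Metric
open scoped ENNReal NNReal RealInnerProductSpace

namespace Pool.Agent.Lib.MP_84d657_an

variable {m : ℕ} {Ω : Set (Euc m)} {φ ρ u : Euc m → ℝ} {G : Euc m → Euc m}

theorem Admissible.neg (h : Admissible Ω φ u G) :
    Admissible Ω (fun x => -φ x) (fun x => -u x) (fun x => -G x) := by
  refine ⟨h.continuousOn.neg, fun x hx => by simp [h.boundary hx],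
    ⟨h.weak.1.neg, h.weak.2.1.neg, fun η h1 h2 h3 ξ => ?_⟩, by simpa using h.norm_le⟩
  simp only [neg_mul, inner_neg_left, integral_neg, h.weak.2.2 η h1 h2 h3 ξ]

theorem IsMinimizer.neg (h : IsMinimizer Ω φ ρ u G) :
    IsMinimizer Ω (fun x => -φ x) (fun x => -ρ x) (fun x => -u x) (fun x => -G x) := by
  refine ⟨h.1.neg, fun v H hv => ?_⟩
  have h1 := h.2 (fun x => -v x) (fun x => -H x) (by simpa using hv.neg)
  simpa [action] using h1

theorem Admissible.abs_sub_le (hΩ : IsOpen Ω) (h : Admissible Ω φ u G) {x y : Euc m}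
    (hseg : segment ℝ x y ⊆ Ω) : |u y - u x| ≤ ‖y - x‖ :=
  abs_sub_le_of_segment hΩ (h.continuousOn.mono subset_closure) h.weak h.norm_le hseg

theorem add_smul_add_smul (x e : Euc m) (a s : ℝ) : x + a • e + s • e = x + (a + s) • e := by
  rw [add_assoc, ← add_smul]

theorem comb_line (x e : Euc m) {s t : ℝ} (hst : s + t = 1) (a b : ℝ) :
    s • (x + a • e) + t • (x + b • e) = x + (s * a + t * b) • e := by
  rw [smul_add, smul_add, add_add_add_comm, ← add_smul, hst, one_smul, smul_smul, smul_smul,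
    ← add_smul]

theorem segment_line {x e : Euc m} {a b : ℝ} (hab : a ≤ b)
    (h : ∀ s ∈ Icc a b, x + s • e ∈ Ω) : segment ℝ (x + a • e) (x + b • e) ⊆ Ω := by
  rintro z ⟨s, t, hs, ht, hst, rfl⟩
  rw [comb_line x e hst]
  have h2 : s = 1 - t := by linarith
  refine h _ ⟨?_, ?_⟩ <;> rw [h2] <;> nlinarith

theorem Admissible.line_le (hΩ : IsOpen Ω) (h : Admissible Ω φ u G) {x e : Euc m} (he : ‖e‖ = 1)
    {a b : ℝ} (hab : a ≤ b) (hl : ∀ s ∈ Icc a b, x + s • e ∈ Ω) :
    u (x + b • e) - u (x + a • e) ≤ b - a := by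
  have h1 := h.abs_sub_le hΩ (segment_line hab hl)
  rw [add_sub_add_left_eq_sub, ← sub_smul, norm_smul, he, mul_one,
    Real.norm_of_nonneg (sub_nonneg.2 hab)] at h1
  exact (le_abs_self _).trans h1

theorem integrableOn_area (hΩb : Bornology.IsBounded Ω) {H : Euc m → Euc m}
    (hH : LocallyIntegrableOn H Ω) : IntegrableOn (fun x => 1 - √(1 - ‖H x‖ ^ 2)) Ω := by
  have hc : Continuous fun v : Euc m => 1 - √(1 - ‖v‖ ^ 2) := by fun_prop
  refine IntegrableOn.of_bound hΩb.measure_lt_top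
    (hc.comp_aestronglyMeasurable hH.aestronglyMeasurable) 1 (Eventually.of_forall fun x => ?_)
  have h1 : √(1 - ‖H x‖ ^ 2) ≤ 1 := Real.sqrt_le_one.2 (by nlinarith [sq_nonneg ‖H x‖])
  rw [Real.norm_eq_abs, abs_le]
  constructor <;> linarith [Real.sqrt_nonneg (1 - ‖H x‖ ^ 2)]

theorem norm_add_gradient {g : Euc m} {T : Euc m →L[ℝ] ℝ} (h : innerSL ℝ g = T)
    (ψ : Euc m → ℝ) (x : Euc m) : ‖g + gradient ψ x‖ = ‖T + fderiv ℝ ψ x‖ := by
  rw [← innerSL_apply_norm ℝ, map_add, h]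
  congr 2
  ext v
  simp [gradient]

/-- A light segment of a minimizer cannot have an end point in the domain. -/
theorem no_endpoint {k : ℕ} {Ω : Set (Euc (k + 1 + 1))} {φ ρ u : Euc (k + 1 + 1) → ℝ}
    {G : Euc (k + 1 + 1) → Euc (k + 1 + 1)} (hΩ : IsOpen Ω) (hΩb : Bornology.IsBounded Ω)
    (hρ₁ : IntegrableOn ρ Ω)
    (hρ : ∀ K ⊆ Ω, IsCompact K → IntegrableOn (fun x => |ρ x| ^ (k + 1)) K)
    (hu : IsMinimizer Ω φ ρ u G) {p e : Euc (k + 1 + 1)} (he : ‖e‖ = 1) {T δ : ℝ} (hT : 0 < T)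
    (hδ : 0 < δ) (hl : ∀ s ∈ Icc 0 T, p + s • e ∈ Ω) (hlight : u (p + T • e) = u p + T)
    (hend : ∀ η, 0 < η → η < δ → u p - η < u (p + (-η) • e)) : False := by
  have hp : p ∈ Ω := by simpa using hl 0 ⟨le_rfl, hT.le⟩
  obtain ⟨r, hr, hball⟩ := Metric.isOpen_iff.1 hΩ p hp
  set L := min (r / 4) (min (T / 2) δ) with hLd
  have hL : 0 < L := lt_min (by positivity) (lt_min (by positivity) hδ)
  have hLr : L ≤ r / 4 := min_le_left _ _
  have hLT : L ≤ T / 2 := (min_le_right _ _).trans (min_le_left _ _)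
  have hLδ : L ≤ δ := (min_le_right _ _).trans (min_le_right _ _)
  have hlip : LipschitzOnWith 1 u (ball p r) := by
    refine LipschitzOnWith.of_dist_le_mul fun x hx y hy => ?_
    rw [NNReal.coe_one, one_mul, Real.dist_eq, dist_eq_norm]
    exact hu.1.abs_sub_le hΩ (((convex_ball p r).segment_subset hy hx).trans hball)
  obtain ⟨v, hv, huv⟩ := hlip.extend_real
  have hmem : ∀ s : ℝ, |s| < r → p + s • e ∈ ball p r := by
    intro s hs
    rwa [mem_ball, dist_eq_norm, add_sub_cancel_left, norm_smul, he, mul_one]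
  set Z := p + L • e with hZ
  have hZs : ∀ s : ℝ, Z + s • e = p + (L + s) • e := fun s => add_smul_add_smul p e L s
  set K := closedBall Z (2 * L) with hK
  have hKB : K ⊆ ball p r := by
    refine closedBall_subset_ball' ?_
    rw [dist_eq_norm, hZ, add_sub_cancel_left, norm_smul, he, mul_one, Real.norm_of_nonneg hL.le]
    linarith
  have hKΩ : K ⊆ Ω := hKB.trans hball
  have hKm : MeasurableSet K := measurableSet_closedBall
  set u₀ : Euc (k + 1 + 1) → ℝ := fun w => v (Z + w) - (u p + L) with hu₀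
  have hu₀l : LipschitzWith 1 u₀ := by
    refine LipschitzWith.of_dist_le_mul fun x y => ?_
    have := hv.dist_le_mul (Z + x) (Z + y)
    simpa [hu₀, dist_eq_norm] using this
  have hright : u₀ (L • e) = L := by
    have h1 := hu.1.line_le hΩ he (a := 0) (b := L + L) (x := p) (by linarith)
      fun s hs => hl s ⟨hs.1, by linarith [hs.2]⟩
    have h2 := hu.1.line_le hΩ he (a := L + L) (b := T) (x := p) (by linarith)
      fun s hs => hl s ⟨by linarith [hs.1], hs.2⟩
    rw [zero_smul, add_zero p] at h1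
    simp only [hu₀]
    rw [hZs, ← huv (hmem _ (by rw [abs_of_pos (by linarith)]; linarith))]
    linarith
  have hleft : u₀ ((-L) • e) = -L := by
    simp only [hu₀]
    rw [hZs, ← huv (hmem _ (by simpa using hr))]
    simp
  have hbeyond : ∀ η, 0 < η → η ≤ L / 16 → -(L + η) < u₀ ((-(L + η)) • e) := by
    intro η h1 h2
    simp only [hu₀]
    have h3 : L + -(L + η) = -η := by ring
    rw [hZs, h3, ← huv (hmem _ (by rw [abs_neg, abs_of_pos h1]; linarith))]
    linarith [hend η h1 (by linarith)]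
  set ρ₀ : Euc (k + 1 + 1) → ℝ := fun w => K.indicator ρ (Z + w) with hρ₀
  have hρ₀i : Integrable ρ₀ := ((hρ₁.mono_set hKΩ).integrable_indicator hKm).comp_add_left Z
  have hρ₀n : Integrable fun w => |ρ₀ w| ^ (k + 1) := by
    refine (((hρ K hKΩ (isCompact_closedBall _ _)).integrable_indicator hKm).comp_add_left Z).congr
      (Eventually.of_forall fun w => ?_)
    by_cases h : Z + w ∈ K <;> simp [hρ₀, h]
  obtain ⟨ψ₀, D, hD, hsupp, hnorm, hlt⟩ := core rfl he hu₀l hL hright hleft hbeyond hρ₀i hρ₀n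
  set ψ : Euc (k + 1 + 1) → ℝ := fun x => ψ₀ (x - Z) with hψ
  have hψl : LipschitzWith D ψ := by
    refine LipschitzWith.of_dist_le_mul fun x y => ?_
    simpa [hψ, dist_eq_norm] using hD.dist_le_mul (x - Z) (y - Z)
  have hψs : tsupport ψ ⊆ K := by
    refine closure_minimal (fun x hx => ?_) isClosed_closedBall
    have h1 := hsupp (subset_tsupport ψ₀ hx)
    rwa [mem_closedBall_zero_iff, ← dist_eq_norm] at h1
  have hψ0 : ∀ x, x ∉ K → ψ x = 0 := fun x hx =>
    image_eq_zero_of_notMem_tsupport fun h => hx (hψs h)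
  have hψd : ∀ x, x ∉ K → fderiv ℝ ψ x = 0 := fun x hx =>
    fderiv_eq_zero_of_notMem fun h => hx (hψs h)
  have hd₁ : ∀ w, fderiv ℝ u₀ w = fderiv ℝ v (Z + w) := fun w => by
    rw [hu₀, fderiv_sub_const, fderiv_comp_add_left]
  have hd₂ : ∀ w, fderiv ℝ ψ₀ w = fderiv ℝ ψ (Z + w) := fun w => by
    rw [hψ, fderiv_comp_sub, add_sub_cancel_left]
  have hd₃ : ∀ w, ψ₀ w = ψ (Z + w) := fun w => by simp [hψ]
  simp only [hd₁, hd₂] at hnorm hlt
  simp only [hd₃, hρ₀] at hlt
  rw [integral_add_left_eq_self (fun x => √(1 - ‖fderiv ℝ v x‖ ^ 2) -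
      √(1 - ‖fderiv ℝ v x + fderiv ℝ ψ x‖ ^ 2)) Z,
    integral_add_left_eq_self (fun x => K.indicator ρ x * ψ x) Z] at hlt
  have hnorm' : ∀ᵐ x, ‖fderiv ℝ v x + fderiv ℝ ψ x‖ ≤ 1 := by
    have := (measurePreserving_add_left volume (-Z)).quasiMeasurePreserving.ae hnorm
    simpa using this
  have hid := ae_eq_fderiv hu.1.weak isOpen_ball hball hv huv
  have hadm : Admissible Ω φ (fun x => u x + ψ x) (fun x => G x + gradient ψ x) := by
    refine ⟨hu.1.continuousOn.add hψl.continuous.continuousOn, fun x hx => ?_,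
      hu.1.weak.add_lipschitz hψl, ?_⟩
    · have h1 : x ∉ Ω := by
        rw [hΩ.frontier_eq] at hx
        exact hx.2
      simp [hψ0 x fun h => h1 (hKΩ h), hu.1.boundary hx]
    · filter_upwards [hu.1.norm_le, ae_restrict_of_ae hnorm', ae_restrict_of_ae hid]
        with x h1 h2 h3
      by_cases hx : x ∈ K
      · rwa [norm_add_gradient (h3 (hKB hx))]
      · simpa [gradient, hψd x hx] using h1
  have hmin := hu.2 _ _ hadm
  have hc : IsCompact (closure Ω) := hΩb.isCompact_closure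
  have hi₁ : IntegrableOn (fun x => ρ x * u x) Ω :=
    hρ₁.mul_continuousOn_of_subset hu.1.continuousOn hΩ.measurableSet hc subset_closure
  have hi₂ : IntegrableOn (fun x => ρ x * ψ x) Ω :=
    hρ₁.mul_continuousOn_of_subset hψl.continuous.continuousOn hΩ.measurableSet hc subset_closure
  have h1 : ∫ x in Ω, ρ x * (u x + ψ x) = (∫ x in Ω, ρ x * u x) + ∫ x, K.indicator ρ x * ψ x := by
    simp only [mul_add]
    rw [integral_add hi₁ hi₂, setIntegral_eq_integral_of_zero (f := fun x => ρ x * ψ x)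
      fun x hx => by simp [hψ0 x fun h => hx (hKΩ h)]]
    congr 1
    refine integral_congr_ae (Eventually.of_forall fun x => ?_)
    by_cases hx : x ∈ K <;> simp [hx, hψ0]
  have h2 : (∫ x in Ω, (1 - √(1 - ‖G x + gradient ψ x‖ ^ 2))) -
      ∫ x in Ω, (1 - √(1 - ‖G x‖ ^ 2)) =
      ∫ x, (√(1 - ‖fderiv ℝ v x‖ ^ 2) - √(1 - ‖fderiv ℝ v x + fderiv ℝ ψ x‖ ^ 2)) := by
    rw [← integral_sub (integrableOn_area hΩb hadm.weak.2.1) (integrableOn_area hΩb hu.1.weak.2.1),
      ← setIntegral_eq_integral_of_zero (Ω := Ω) fun x hx => by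
        simp [hψd x fun h => hx (hKΩ h)]]
    refine integral_congr_ae ?_
    filter_upwards [ae_restrict_of_ae hid] with x h3
    by_cases hx : x ∈ K
    · rw [norm_add_gradient (h3 (hKB hx)), ← h3 (hKB hx), innerSL_apply_norm]
      ring
    · simp [gradient, hψd x hx]
  unfold action at hmin
  linarith

/-- Maximal backward extension of a light segment. -/
theorem exists_extension (hΩ : IsOpen Ω) (hΩb : Bornology.IsBounded Ω) (hu : Admissible Ω φ u G)
    {x e : Euc m} (hx : x ∈ Ω) (he : ‖e‖ = 1) :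
    ∃ a : ℝ, a ≤ 0 ∧ x + a • e ∈ closure Ω ∧ (∀ s ∈ Ioc a 0, x + s • e ∈ Ω) ∧
      u (x + a • e) = u x + a ∧ (x + a • e ∈ Ω →
        ∃ δ > 0, ∀ η, 0 < η → η < δ → u (x + a • e) - η < u (x + a • e + (-η) • e)) := by
  set S := {a : ℝ | a ≤ 0 ∧ (∀ s ∈ Icc a 0, x + s • e ∈ Ω) ∧ u (x + a • e) = u x + a} with hS
  have h0 : (0 : ℝ) ∈ S := by
    refine ⟨le_rfl, fun s hs => ?_, by simp⟩
    have : s = 0 := le_antisymm hs.2 hs.1
    simpa [this] using hx
  obtain ⟨R, hR⟩ := hΩb.subset_closedBall x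
  have hbdd : BddBelow S := by
    refine ⟨-R, fun a ha => ?_⟩
    have h1 := hR (ha.2.1 a ⟨le_rfl, ha.1⟩)
    rw [mem_closedBall, dist_eq_norm, add_sub_cancel_left, norm_smul, he, mul_one,
      Real.norm_eq_abs] at h1
    exact (abs_le.1 h1).1
  set a := sInf S with ha
  have ha0 : a ≤ 0 := csInf_le hbdd h0
  have hγ : Continuous fun s : ℝ => x + s • e := by fun_prop
  have hclosed : IsClosed ((fun s : ℝ => x + s • e) ⁻¹' closure Ω ∩
      (fun s : ℝ => u (x + s • e) - s) ⁻¹' {u x}) := by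
    refine ContinuousOn.preimage_isClosed_of_isClosed ?_ (isClosed_closure.preimage hγ)
      isClosed_singleton
    exact (hu.continuousOn.comp hγ.continuousOn fun s hs => hs).sub continuousOn_id
  have hsub : S ⊆ (fun s : ℝ => x + s • e) ⁻¹' closure Ω ∩
      (fun s : ℝ => u (x + s • e) - s) ⁻¹' {u x} := fun b hb =>
    ⟨subset_closure (hb.2.1 b ⟨le_rfl, hb.1⟩), by simp [hb.2.2]⟩
  have hmem := closure_minimal hsub hclosed (csInf_mem_closure ⟨0, h0⟩ hbdd)
  have hval : u (x + a • e) = u x + a := by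
    have : u (x + a • e) - a = u x := hmem.2
    linarith
  have hin : ∀ s ∈ Ioc a 0, x + s • e ∈ Ω := by
    intro s hs
    obtain ⟨b, hb, hbs⟩ := exists_lt_of_csInf_lt ⟨0, h0⟩ hs.1
    exact hb.2.1 s ⟨hbs.le, hs.2⟩
  refine ⟨a, ha0, hmem.1, hin, hval, fun hp => ?_⟩
  obtain ⟨δ, hδ, hball⟩ := Metric.isOpen_iff.1 hΩ _ hp
  refine ⟨δ, hδ, fun η h1 h2 => ?_⟩
  have hall : ∀ s ∈ Icc (a - η) 0, x + s • e ∈ Ω := by
    intro s hs
    rcases le_or_gt s a with h | h
    · apply hball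
      rw [mem_ball, dist_eq_norm, add_sub_add_left_eq_sub, ← sub_smul, norm_smul, he, mul_one,
        Real.norm_eq_abs, abs_lt]
      constructor <;> linarith [hs.1]
    · exact hin s ⟨h, hs.2⟩
  have h3 : x + a • e + (-η) • e = x + (a - η) • e := by rw [add_assoc, ← add_smul, sub_eq_add_neg]
  rw [h3]
  have h4 := hu.line_le hΩ he (x := x) (a := a - η) (b := a) (by linarith)
    fun s hs => hall s ⟨hs.1, hs.2.trans ha0⟩
  refine lt_of_le_of_ne (by linarith) fun h5 => ?_
  have h6 : a - η ∈ S := ⟨by linarith, hall, by linarith⟩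
  linarith [csInf_le hbdd h6]

theorem intrinsicDist_le {x y : Euc m} (h : openSegment ℝ x y ⊆ Ω) :
    intrinsicDist Ω x y ≤ edist x y := by
  have hp : IsPolyPath Ω x y 1 fun i => if i = 0 then x else y := by
    refine ⟨one_pos, by simp, by simp, fun i hi => ?_, fun i h1 h2 => by omega⟩
    have : i = 0 := by omega
    simpa [this] using h
  unfold intrinsicDist
  refine iInf_le_of_le 1 (iInf_le_of_le (fun i => if i = 0 then x else y) (iInf_le_of_le hp ?_))
  simp

theorem not_light {k : ℕ} {Ω : Set (Euc (k + 1 + 1))} {φ ρ u : Euc (k + 1 + 1) → ℝ}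
    {G : Euc (k + 1 + 1) → Euc (k + 1 + 1)} (hΩ : IsOpen Ω) (hΩb : Bornology.IsBounded Ω)
    (hφ : SpacelikeData Ω φ) (hρ₁ : IntegrableOn ρ Ω)
    (hρ : ∀ K ⊆ Ω, IsCompact K → IntegrableOn (fun x => |ρ x| ^ (k + 1)) K)
    (hu : IsMinimizer Ω φ ρ u G) {x y : Euc (k + 1 + 1)} (hxy : x ≠ y)
    (hseg : segment ℝ x y ⊆ Ω) : u y - u x ≠ ‖y - x‖ := by
  intro hlight
  set l := ‖y - x‖ with hl
  have hl0 : 0 < l := norm_pos_iff.2 (sub_ne_zero.2 hxy.symm)
  set e := l⁻¹ • (y - x) with hed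
  have he : ‖e‖ = 1 := by
    rw [hed, norm_smul, norm_inv, Real.norm_of_nonneg hl0.le, inv_mul_cancel₀ hl0.ne']
  have hy : y = x + l • e := by rw [hed, smul_smul, mul_inv_cancel₀ hl0.ne', one_smul]; abel
  have hmid : ∀ s ∈ Icc 0 l, x + s • e ∈ Ω := by
    intro s hs
    apply hseg
    rw [segment_eq_image']
    refine ⟨s * l⁻¹, ⟨mul_nonneg hs.1 (by positivity), ?_⟩, by simp [hed, smul_smul]⟩
    rw [← div_eq_mul_inv, div_le_one hl0]
    exact hs.2
  obtain ⟨a, ha0, hac, hain, hav, hae⟩ :=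
    exists_extension hΩ hΩb hu.1 (hseg (left_mem_segment ℝ x y)) he
  obtain ⟨b, hb0, hbc, hbin, hbv, hbe⟩ :=
    exists_extension hΩ hΩb hu.neg.1 (hseg (right_mem_segment ℝ x y)) (e := -e)
      (by rw [norm_neg, he])
  have hyb : ∀ s : ℝ, y + s • (-e) = x + (l - s) • e := fun s => by
    rw [hy, smul_neg, sub_smul]
    abel
  have hopen : ∀ s ∈ Ioo a (l - b), x + s • e ∈ Ω := by
    intro s hs
    rcases le_or_gt s 0 with h | h
    · exact hain s ⟨hs.1, h⟩
    rcases le_or_gt s l with h' | h'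
    · exact hmid s ⟨h.le, h'⟩
    · have := hbin (l - s) ⟨by linarith [hs.2], by linarith⟩
      rwa [hyb, sub_sub_cancel] at this
  by_cases hp : x + a • e ∈ Ω
  · obtain ⟨δ, hδ, hend⟩ := hae hp
    refine no_endpoint hΩ hΩb hρ₁ hρ hu he (T := l - a) (by linarith) hδ (fun s hs => ?_) ?_ hend
    · rw [add_smul_add_smul]
      rcases hs.1.eq_or_lt with h | h
      · simpa [← h] using hp
      rcases le_or_gt (a + s) 0 with h' | h'
      · exact hain _ ⟨by linarith, h'⟩
      · exact hmid _ ⟨h'.le, by linarith [hs.2]⟩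
    · rw [add_smul_add_smul, add_sub_cancel, ← hy]
      linarith
  by_cases hq : y + b • (-e) ∈ Ω
  · obtain ⟨δ, hδ, hend⟩ := hbe hq
    refine no_endpoint hΩ hΩb hρ₁.neg (by simpa using hρ) hu.neg (e := -e)
      (by rw [norm_neg, he]) (T := l - b) (by linarith) hδ (fun s hs => ?_) ?_ hend
    · rw [add_smul_add_smul]
      rcases hs.1.eq_or_lt with h | h
      · simpa [← h] using hq
      rcases le_or_gt (b + s) 0 with h' | h'
      · exact hbin _ ⟨by linarith, h'⟩
      · rw [hyb]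
        exact hmid _ ⟨by linarith [hs.2], by linarith⟩
    · rw [add_smul_add_smul, add_sub_cancel, hyb l, sub_self, zero_smul, add_zero x]
      linarith
  have hpf : x + a • e ∈ frontier Ω := by
    rw [hΩ.frontier_eq]
    exact ⟨hac, hp⟩
  have hqf : y + b • (-e) ∈ frontier Ω := by
    rw [hΩ.frontier_eq]
    exact ⟨hbc, hq⟩
  have hab : 0 < l - b - a := by linarith
  have hdist : dist (x + a • e) (y + b • (-e)) = l - b - a := by
    rw [hyb, dist_comm, dist_eq_norm, add_sub_add_left_eq_sub, ← sub_smul, norm_smul, he, mul_one,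
      Real.norm_of_nonneg hab.le]
  have hne : x + a • e ≠ y + b • (-e) := dist_pos.1 (by rw [hdist]; exact hab)
  have h1 := hφ.2 _ hpf _ hqf hne
  have h2 : openSegment ℝ (x + a • e) (y + b • (-e)) ⊆ Ω := by
    rintro z ⟨s, t, hs, ht, hst, rfl⟩
    rw [hyb, comb_line x e hst]
    have h4 : s = 1 - t := by linarith
    refine hopen _ ⟨?_, ?_⟩ <;> rw [h4] <;> nlinarith
  have h3 := h1.trans_le (intrinsicDist_le h2)
  rw [edist_dist, edist_dist, hdist, ← hu.1.boundary hpf, ← hu.1.boundary hqf, Real.dist_eq,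
    abs_sub_comm, ENNReal.ofReal_lt_ofReal_iff hab] at h3
  have h4 : u (y + b • (-e)) - u (x + a • e) = l - b - a := by linarith
  rw [h4, abs_of_pos hab] at h3
  exact lt_irrefl _ h3

end Pool.Agent.Lib.MP_84d657_an
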