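import Pool.Agent.Lib.MP_84d657_an.Defs

/-!
Lipschitz functions, integration by parts and weak gradients.
-/

open Set MeasureTheory Filter Topology Metric
open scoped ContDiff ENNReal NNReal RealInnerProductSpace Convolution

namespace Pool.Agent.Lib.MP_84d657_an

variable {m : ℕ}

theorem exists_lipschitz_of_compact {f : Euc m → ℝ} (hf : LocallyLipschitz f)
    (hc : HasCompactSupport f) : ∃ K, LipschitzWith K f := by
  obtain ⟨R, hR⟩ := hc.isCompact.isBounded.subset_closedBall 0
  obtain ⟨K, hK⟩ := (hf.locallyLipschitzOn (s := closedBall (0 : Euc m) (R + 1))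
    ).exists_lipschitzOnWith_of_compact (isCompact_closedBall _ _)
  obtain ⟨M, hM⟩ := hf.continuous.bounded_above_of_compact_support hc
  have hM0 : 0 ≤ M := (norm_nonneg _).trans (hM 0)
  have hz : ∀ x, R < ‖x‖ → f x = 0 := by
    intro x hx
    by_contra h
    have := hR (subset_tsupport f h)
    rw [mem_closedBall_zero_iff] at this
    linarith
  refine ⟨K + (2 * M).toNNReal, LipschitzWith.of_dist_le_mul fun x y => ?_⟩
  have hK0 : (0 : ℝ) ≤ K := K.2
  have hd := dist_nonneg (x := x) (y := y)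
  rw [NNReal.coe_add, Real.coe_toNNReal _ (by positivity)]
  rcases le_or_gt (dist x y) 1 with h1 | h1
  · by_cases hx : ‖x‖ ≤ R + 1
    · by_cases hy : ‖y‖ ≤ R + 1
      · have := hK.dist_le_mul x (mem_closedBall_zero_iff.2 hx) y (mem_closedBall_zero_iff.2 hy)
        nlinarith
      · have h2 : ‖y‖ ≤ ‖x‖ + dist x y := by
          rw [dist_comm, dist_eq_norm]
          linarith [norm_sub_norm_le y x]
        rw [hz x (by linarith [not_le.1 hy]), hz y (by linarith [not_le.1 hy]), dist_self]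
        positivity
    · have h2 : ‖x‖ ≤ ‖y‖ + dist x y := by
        rw [dist_eq_norm]
        linarith [norm_sub_norm_le x y]
      rw [hz x (by linarith [not_le.1 hx]), hz y (by linarith [not_le.1 hx]), dist_self]
      positivity
  · have h2 : dist (f x) (f y) ≤ 2 * M := by
      rw [dist_eq_norm]
      linarith [norm_sub_le (f x) (f y), hM x, hM y]
    nlinarith

theorem integrable_fderiv_apply {h : Euc m → ℝ} {K : ℝ≥0} (hh : LipschitzWith K h)
    (hc : HasCompactSupport h) (v : Euc m) : Integrable (fun x => fderiv ℝ h x v) := by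
  have h1 : IntegrableOn (fun x => fderiv ℝ h x v) (tsupport h) := by
    refine Measure.integrableOn_of_bounded (M := K * ‖v‖) hc.isCompact.measure_lt_top.ne
      (measurable_fderiv_apply_const ℝ h v).aestronglyMeasurable ?_
    refine Eventually.of_forall fun x => ?_
    exact ((fderiv ℝ h x).le_opNorm v).trans
      (mul_le_mul_of_nonneg_right (norm_fderiv_le_of_lipschitz ℝ hh) (norm_nonneg v))
  refine (integrableOn_iff_integrable_of_support_subset ?_).1 h1
  intro x hx
  by_contra hx'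
  have : h =ᶠ[𝓝 x] fun _ => 0 := notMem_tsupport_iff_eventuallyEq.1 hx'
  exact hx (by simp [this.fderiv_eq])

theorem integral_mul_fderiv {f g : Euc m → ℝ} {K D : ℝ≥0} (hf : LipschitzWith K f)
    (hg : LipschitzWith D g) (hc : HasCompactSupport g) (v : Euc m) :
    ∫ x, f x * fderiv ℝ g x v = -∫ x, fderiv ℝ f x v * g x := by
  have h1 := hf.integral_lineDeriv_mul_eq (μ := volume) hg hc v
  have h2 : ∫ x, lineDeriv ℝ f x v * g x = ∫ x, fderiv ℝ f x v * g x := by
    refine integral_congr_ae ?_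
    filter_upwards [hf.ae_differentiableAt (μ := volume)] with x hx
    rw [hx.lineDeriv_eq_fderiv]
  have h3 : ∫ x, lineDeriv ℝ g x (-v) * f x = -∫ x, f x * fderiv ℝ g x v := by
    rw [← integral_neg]
    refine integral_congr_ae ?_
    filter_upwards [hg.ae_differentiableAt (μ := volume)] with x hx
    rw [hx.lineDeriv_eq_fderiv, map_neg]
    ring
  rw [← h2, h1, h3, neg_neg]

theorem integral_fderiv_apply {h : Euc m → ℝ} {K : ℝ≥0} (hh : LipschitzWith K h)
    (hc : HasCompactSupport h) (v : Euc m) : ∫ x, fderiv ℝ h x v = 0 := by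
  have := integral_mul_fderiv (LipschitzWith.const (1 : ℝ)) hh hc v
  simpa using this

/-- The product of a function which is `C^1` near the support of a Lipschitz function with compact
support is Lipschitz. -/
theorem exists_lipschitz_mul {f ζ : Euc m → ℝ} {K : ℝ≥0} (hζ : LipschitzWith K ζ)
    (hc : HasCompactSupport ζ) (hf : ∀ x ∈ tsupport ζ, ContDiffAt ℝ 1 f x) :
    ∃ D, LipschitzWith D fun x => f x * ζ x := by
  refine exists_lipschitz_of_compact ?_ hc.mul_left
  intro x
  by_cases hx : x ∈ tsupport ζ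
  · obtain ⟨K₁, t₁, ht₁, h₁⟩ := (hf x hx).exists_lipschitzOnWith
    have hm : ContDiff ℝ 1 fun p : ℝ × ℝ => p.1 * p.2 := by fun_prop
    obtain ⟨K₂, t₂, ht₂, h₂⟩ := hm.locallyLipschitz (f x, ζ x)
    have hcont : ContinuousAt (fun y => (f y, ζ y)) x :=
      (hf x hx).continuousAt.prodMk hζ.continuous.continuousAt
    refine ⟨K₂ * max K₁ K, t₁ ∩ (fun y => (f y, ζ y)) ⁻¹' t₂, inter_mem ht₁ (hcont ht₂), ?_⟩
    exact h₂.comp ((h₁.prodMk hζ.lipschitzOnWith).mono inter_subset_left) fun y hy => hy.2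
  · have : ζ =ᶠ[𝓝 x] fun _ => 0 := notMem_tsupport_iff_eventuallyEq.1 hx
    refine ⟨0, {y | ζ y = 0}, this, ?_⟩
    intro y hy z hz
    have hy' : ζ y = 0 := hy
    have hz' : ζ z = 0 := hz
    simp [hy', hz']

theorem hasFDerivAt_norm_of_ne {w : Euc m} (hw : w ≠ 0) :
    HasFDerivAt (fun y : Euc m => ‖y‖) (‖w‖⁻¹ • innerSL ℝ w) w := by
  have h0 : ‖w‖ ≠ 0 := norm_ne_zero_iff.2 hw
  have h1 := ((hasFDerivAt_id w).norm_sq).sqrt (by simpa using hw)
  simp only [id, Real.sqrt_sq (norm_nonneg _)] at h1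
  refine h1.congr_fderiv ?_
  ext v
  simp
  field_simp

/-- The radial field `w / |w| ^ m` is divergence free away from the origin. -/
theorem integral_radial {ζ : Euc m → ℝ} {K : ℝ≥0} (hζ : LipschitzWith K ζ)
    (hc : HasCompactSupport ζ) (h0 : (0 : Euc m) ∉ tsupport ζ) :
    Integrable (fun w => (‖w‖ ^ m)⁻¹ * fderiv ℝ ζ w w) ∧
      ∫ w, (‖w‖ ^ m)⁻¹ * fderiv ℝ ζ w w = 0 := by
  set b := EuclideanSpace.basisFun (Fin m) ℝ
  set f : Fin m → Euc m → ℝ := fun i w => (‖w‖ ^ m)⁻¹ * ⟪b i, w⟫ with hf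
  have hfc : ∀ i, ∀ x ∈ tsupport ζ, ContDiffAt ℝ 1 (f i) x := by
    intro i x hx
    have hx0 : x ≠ 0 := fun h => h0 (h ▸ hx)
    exact (((contDiffAt_norm ℝ hx0).pow m).inv (pow_ne_zero _ (norm_ne_zero_iff.2 hx0))).mul
      (innerSL ℝ (b i)).contDiff.contDiffAt
  choose D hD using fun i => exists_lipschitz_mul hζ hc (hfc i)
  have hsum : ∀ᵐ w, ∑ i, fderiv ℝ (fun x => f i x * ζ x) w (b i) =
      (‖w‖ ^ m)⁻¹ * fderiv ℝ ζ w w := by
    filter_upwards [hζ.ae_differentiableAt (μ := volume)] with w hw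
    by_cases hx : w ∈ tsupport ζ
    · have hw0 : w ≠ 0 := fun h => h0 (h ▸ hx)
      have hn : ‖w‖ ≠ 0 := norm_ne_zero_iff.2 hw0
      have hk : HasFDerivAt (fun y : Euc m => (‖y‖ ^ m)⁻¹) _ w :=
        (hasDerivAt_inv (pow_ne_zero m hn)).comp_hasFDerivAt w
          ((hasFDerivAt_norm_of_ne hw0).pow m)
      set k' : Euc m →L[ℝ] ℝ := fderiv ℝ (fun y : Euc m => (‖y‖ ^ m)⁻¹) w with hk'
      have hkw : k' w = -(m * (‖w‖ ^ m)⁻¹) := by
        rw [hk', hk.fderiv]
        rcases Nat.eq_zero_or_pos m with rfl | hm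
        · simp
        · obtain ⟨n, rfl⟩ := Nat.exists_eq_succ_of_ne_zero hm.ne'
          simp
          field_simp
          ring
      have hi : ∀ i, fderiv ℝ (fun x => f i x * ζ x) w (b i) =
          (‖w‖ ^ m)⁻¹ * fderiv ℝ ζ w (⟪b i, w⟫ • b i) +
            ζ w * ((‖w‖ ^ m)⁻¹ + k' (⟪b i, w⟫ • b i)) := by
        intro i
        have h1 := (hk.differentiableAt.hasFDerivAt.mul
          (innerSL ℝ (b i)).hasFDerivAt).mul hw.hasFDerivAt
        have h2 : fderiv ℝ (fun x => f i x * ζ x) w = _ := h1.fderiv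
        rw [h2]
        simp [← hk']
        ring
      simp only [hi]
      rw [Finset.sum_add_distrib, ← Finset.mul_sum, ← Finset.mul_sum, ← map_sum,
        Finset.sum_add_distrib, ← map_sum, b.sum_repr', hkw]
      simp
    · have : ζ =ᶠ[𝓝 w] fun _ => 0 := notMem_tsupport_iff_eventuallyEq.1 hx
      have h2 : ∀ i, (fun x => f i x * ζ x) =ᶠ[𝓝 w] fun _ => 0 := by
        intro i
        filter_upwards [this] with y hy
        simp [hy]
      have h3 : ∀ i, fderiv ℝ (fun x => f i x * ζ x) w = 0 := fun i => by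
        rw [(h2 i).fderiv_eq]
        simp
      simp [this.fderiv_eq, h3]
  have hint : ∀ i, Integrable fun w => fderiv ℝ (fun x => f i x * ζ x) w (b i) :=
    fun i => integrable_fderiv_apply (hD i) hc.mul_left (b i)
  refine ⟨(integrable_finsetSum _ fun i _ => hint i).congr hsum, ?_⟩
  rw [← integral_congr_ae hsum, integral_finsetSum _ fun i _ => hint i]
  exact Finset.sum_eq_zero fun i _ => integral_fderiv_apply (hD i) hc.mul_left (b i)

end Pool.Agent.Lib.MP_84d657_an
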